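import Mathlib
import Pool.Agent.Helper292.SP.Lang

set_option autoImplicit false

/-!
# Aronszajn trees, and specialising them without adding reals

The cardinal `𝔫𝔬` of the problem `MP_31a5ad_lc`. The sentences of the forcing language are those of
`Pool.Agent.Helper292.SP.Lang`.
-/

namespace Pool.Agent.R582.NR

open Cardinal Set Ordinal
open Pool.Agent.Helper292.SP (fnot fand fall fimp fiff fex fground meets IsFun)

/-- `r` is the strict order of a tree: a strict partial order such that the set of the
predecessors of every node is well-ordered. -/
structure IsTree {T : Type} (r : T → T → Prop) : Prop where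
  irrefl : ∀ t, ¬ r t t
  trans : ∀ s t u, r s t → r t u → r s u
  wo : ∀ t, IsWellOrder {s // r s t} (fun a b => r a.1 b.1)

/-- The level `α` of the tree: the nodes whose set of predecessors has order type `α`. -/
def Lev {T : Type} (r : T → T → Prop) (α : Ordinal.{0}) : Set T :=
  {t | ∃ _ : IsWellOrder {s // r s t} (fun a b => r a.1 b.1),
    Ordinal.type (fun a b : {s // r s t} => r a.1 b.1) = α}

/-- The tree with the strict order `r` is an `(ω₁, ≤ l)`-Aronszajn tree: its height is `ω₁`, its
levels have at most `l` elements, and it has no cofinal branch (no subset ordered in the type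
`ω₁`). -/
structure IsAronszajn (l : Cardinal.{0}) {T : Type} (r : T → T → Prop) : Prop where
  tree : IsTree r
  height : ∀ α : Ordinal.{0}, α < Ordinal.omega 1 → (Lev r α).Nonempty
  height' : Lev r (Ordinal.omega 1) = ∅
  levels : ∀ α, #(Lev r α) ≤ l
  no_branch : IsEmpty ((fun a b : (Ordinal.omega.{0} 1).ToType => a < b) ↪r r)

/-- The tree is special: it is a union of countably many antichains. -/
def Special {T : Type} (r : T → T → Prop) : Prop := ∃ f : T → ℕ, ∀ s t, r s t → f s ≠ f t

/-- The forcing notion `P` adds no new subsets of `ω`: it is forced that for every subset of `ω`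
of the extension (with the name `x`) there is a subset of `ω` of the ground model equal to it. -/
def NoNewReals (P : Type) [Preorder P] : Prop :=
  ∀ (x : ℕ → Set P) (p : P), p ∈ fex fun a : ℕ → Prop => fall fun n : ℕ =>
    fiff (meets (x n)) (fground (a n))

/-- The forcing notion `P` forces the tree to be special. -/
def ForcesSpecial (P : Type) [Preorder P] {T : Type} (r : T → T → Prop) : Prop :=
  ∀ p : P, p ∈ fex fun f : T → ℕ → Set P => fand (IsFun f) (fall fun s : T => fall fun t : T =>
    fimp (fground (r s t)) (fall fun n : ℕ => fnot (fand (meets (f s n)) (meets (f t n)))))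

/-- The tree can be specialised without adding reals. -/
def SpecNoReals {T : Type} (r : T → T → Prop) : Prop :=
  ∃ (P : Type) (_ : Preorder P), Nonempty P ∧ NoNewReals P ∧ ForcesSpecial P r

/-- The cardinal `𝔫𝔬`: the least infinite cardinal `l` such that there is an
`(ω₁, ≤ l)`-Aronszajn tree of cardinality `l` which can not be specialised without adding reals. -/
noncomputable def noNumber : Cardinal.{0} :=
  sInf {l | ℵ₀ ≤ l ∧ ∃ (T : Type) (r : T → T → Prop), IsAronszajn l r ∧ #T = l ∧ ¬ SpecNoReals r}

end Pool.Agent.R582.NR
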