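import Mathlib

set_option autoImplicit false

/-!
# A tree of well-ordered sets of reals, closed under limits guided by a nonmeager set
-/

namespace Pool.Agent.R582.NR

open Cardinal Set

/-- `u` is an end-extension of `s` -/
def Ext (s u : Set ℝ) : Prop := s ⊆ u ∧ ∀ a ∈ u, a ∉ s → ∀ b ∈ s, b < a

theorem Ext.refl (s : Set ℝ) : Ext s s := ⟨Subset.rfl, fun _ h h' => absurd h h'⟩

theorem Ext.trans {s u v : Set ℝ} (h : Ext s u) (h' : Ext u v) : Ext s v := by
  refine ⟨h.1.trans h'.1, fun a ha has b hb => ?_⟩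
  by_cases hau : a ∈ u
  · exact h.2 a hau has b hb
  · exact h'.2 a ha hau b (h.1 hb)

theorem Ext.empty (s : Set ℝ) : Ext ∅ s := ⟨empty_subset _, fun _ _ _ b hb => absurd hb (by simp)⟩

/-- a nonempty well-ordered set of reals with a largest element -/
def Node (s : Set ℝ) : Prop := s.IsWF ∧ ∃ m ∈ s, ∀ a ∈ s, a ≤ m

/-- the states of the construction -/
structure St where
  s : Set ℝ
  r : ℚ
  q : ℚ

/-- the candidates -/
abbrev Cand : Type := Set ℝ × ℚ × ℚ

/-- the candidate `y` can be taken in the state `σ` -/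
def Adm (σ : St) (y : Cand) : Prop :=
  Ext σ.s y.1 ∧ (∀ a ∈ y.1, a < (y.2.1 : ℝ)) ∧ σ.r < y.2.1 ∧ y.2.1 < y.2.2 ∧ y.2.2 < σ.q ∧ y.1.IsWF

open Classical in
/-- one step -/
noncomputable def step (σ : St) (y : Option Cand) (b : Bool) : St :=
  match y with
  | none => σ
  | some y => if b = true ∧ Adm σ y then ⟨y.1, y.2.1, y.2.2⟩ else σ

/-- the invariant of the construction -/
def Good (σ : St) : Prop := σ.s.IsWF ∧ (∀ a ∈ σ.s, a < (σ.r : ℝ)) ∧ σ.r < σ.q

/-- the relation between a state and a later state -/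
def Le (σ τ : St) : Prop := Ext σ.s τ.s ∧ σ.r ≤ τ.r ∧ τ.q ≤ σ.q ∧ (τ.q = σ.q → τ = σ)

theorem Le.refl (σ : St) : Le σ σ := ⟨Ext.refl _, le_rfl, le_rfl, fun _ => rfl⟩

theorem Le.trans {σ τ υ : St} (h : Le σ τ) (h' : Le τ υ) : Le σ υ := by
  refine ⟨h.1.trans h'.1, h.2.1.trans h'.2.1, h'.2.2.1.trans h.2.2.1, fun he => ?_⟩
  have h1 : τ.q = σ.q := le_antisymm h.2.2.1 (he ▸ h'.2.2.1)
  have h2 := h.2.2.2 h1
  rw [h'.2.2.2 (he.trans h1.symm), h2]

theorem step_le (σ : St) (y : Option Cand) (b : Bool) : Le σ (step σ y b) := by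
  cases y with
  | none => exact Le.refl σ
  | some y =>
    unfold step
    dsimp only
    split_ifs with h
    · obtain ⟨-, h1, h2, h3, h4, h5, h6⟩ := h
      exact ⟨h1, h3.le, h5.le, fun he => absurd he h5.ne⟩
    · exact Le.refl σ

theorem step_good {σ : St} (hσ : Good σ) (y : Option Cand) (b : Bool) : Good (step σ y b) := by
  cases y with
  | none => exact hσ
  | some y =>
    unfold step
    dsimp only
    split_ifs with h
    · obtain ⟨-, h1, h2, h3, h4, h5, h6⟩ := h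
      exact ⟨h6, h2, h4⟩
    · exact hσ

/-- the states of the construction guided by `x` -/
noncomputable def run (e : ℕ → Option Cand) (x : ℕ → Bool) : ℕ → St
  | 0 => ⟨∅, 0, 1⟩
  | k + 1 => step (run e x k) (e k) (x k)

theorem run_good (e : ℕ → Option Cand) (x : ℕ → Bool) : ∀ k, Good (run e x k)
  | 0 => ⟨Set.isWF_empty, fun a ha => absurd ha (by simp [run]), by simp [run]⟩
  | k + 1 => step_good (run_good e x k) _ _

theorem run_le (e : ℕ → Option Cand) (x : ℕ → Bool) {j k : ℕ} (h : j ≤ k) :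
    Le (run e x j) (run e x k) := by
  induction k, h using Nat.le_induction with
  | base => exact Le.refl _
  | succ k _ ih => exact ih.trans (step_le _ _ _)

theorem run_congr (e : ℕ → Option Cand) {x y : ℕ → Bool} {n : ℕ} (h : ∀ k < n, x k = y k) :
    ∀ k ≤ n, run e x k = run e y k
  | 0, _ => rfl
  | k + 1, hk => by
    show step (run e x k) (e k) (x k) = step (run e y k) (e k) (y k)
    rw [run_congr e h k (by omega), h k (by omega)]

theorem exists_bound (e : ℕ → Option Cand) (x : ℕ → Bool) (k : ℕ) :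
    ∃ ρ : ℚ, ρ < (run e x k).q ∧ ∀ j, (run e x j).r ≤ ρ := by
  by_cases h : ∃ k', (run e x k').q < (run e x k).q
  · obtain ⟨k', hk'⟩ := h
    refine ⟨_, hk', fun j => ?_⟩
    have h1 := run_good e x (max j k')
    exact ((run_le e x (le_max_left j k')).2.1.trans h1.2.2.le).trans
      (run_le e x (le_max_right j k')).2.2.1
  · push Not at h
    refine ⟨_, (run_good e x k).2.2, fun j => ?_⟩
    rcases le_total j k with hj | hj
    · exact (run_le e x hj).2.1
    · have h1 := (run_le e x hj).2.2.2 (le_antisymm (run_le e x hj).2.2.1 (h j))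
      rw [h1]

/-- the limit of the numbers `r` -/
noncomputable def lr (e : ℕ → Option Cand) (x : ℕ → Bool) : ℝ :=
  sSup (range fun k => ((run e x k).r : ℝ))

theorem le_lr (e : ℕ → Option Cand) (x : ℕ → Bool) (k : ℕ) : ((run e x k).r : ℝ) ≤ lr e x := by
  obtain ⟨ρ, -, hρ⟩ := exists_bound e x 0
  refine le_csSup ⟨(ρ : ℝ), ?_⟩ ⟨k, rfl⟩
  rintro _ ⟨j, rfl⟩
  exact Rat.cast_le.2 (hρ j)

theorem lr_lt (e : ℕ → Option Cand) (x : ℕ → Bool) (k : ℕ) : lr e x < ((run e x k).q : ℝ) := by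
  obtain ⟨ρ, h, hρ⟩ := exists_bound e x k
  refine lt_of_le_of_lt (csSup_le (range_nonempty _) ?_) (Rat.cast_lt.2 h)
  rintro _ ⟨j, rfl⟩
  exact Rat.cast_le.2 (hρ j)

/-- the limit node -/
noncomputable def lim (e : ℕ → Option Cand) (x : ℕ → Bool) : Set ℝ :=
  (⋃ k, (run e x k).s) ∪ {lr e x}

theorem lt_lr {e : ℕ → Option Cand} {x : ℕ → Bool} {k : ℕ} {a : ℝ} (ha : a ∈ (run e x k).s) :
    a < lr e x := ((run_good e x k).2.1 a ha).trans_le (le_lr e x k)

theorem le_lr_of_mem {e : ℕ → Option Cand} {x : ℕ → Bool} {a : ℝ} (ha : a ∈ lim e x) :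
    a ≤ lr e x := by
  rcases ha with ha | ha
  · obtain ⟨k, hk⟩ := mem_iUnion.1 ha
    exact (lt_lr hk).le
  · exact le_of_eq ha

theorem lim_lt {e : ℕ → Option Cand} {x : ℕ → Bool} {a : ℝ} (ha : a ∈ lim e x) (k : ℕ) :
    a < ((run e x k).q : ℝ) := (le_lr_of_mem ha).trans_lt (lr_lt e x k)

theorem ext_lim (e : ℕ → Option Cand) (x : ℕ → Bool) (k : ℕ) : Ext (run e x k).s (lim e x) := by
  refine ⟨fun a ha => Or.inl (mem_iUnion.2 ⟨k, ha⟩), ?_⟩
  rintro a (ha | ha) hak b hb
  · obtain ⟨j, hj⟩ := mem_iUnion.1 ha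
    rcases le_total j k with h | h
    · exact absurd ((run_le e x h).1.1 hj) hak
    · exact (run_le e x h).1.2 a hj hak b hb
  · rw [mem_singleton_iff] at ha
    rw [ha]
    exact lt_lr hb

theorem run_ne_lim (e : ℕ → Option Cand) (x : ℕ → Bool) (k : ℕ) : (run e x k).s ≠ lim e x := by
  intro h
  have h1 : lr e x ∈ (run e x k).s := h ▸ (Or.inr rfl)
  exact lt_irrefl _ (lt_lr h1)

theorem node_lim (e : ℕ → Option Cand) (x : ℕ → Bool) : Node (lim e x) := by
  refine ⟨?_, lr e x, Or.inr rfl, fun a ha => le_lr_of_mem ha⟩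
  rw [Set.isWF_iff_no_descending_seq]
  intro f hf hall
  have hmem : ∀ n, ∃ k, f (n + 1) ∈ (run e x k).s := by
    intro n
    rcases hall (n + 1) with h | h
    · exact mem_iUnion.1 h
    · have h1 : f (n + 1) < f 0 := hf (Nat.succ_pos n)
      have h2 := le_lr_of_mem (hall 0)
      rw [mem_singleton_iff] at h
      exact absurd (h1.trans_le h2) (by rw [h]; exact lt_irrefl _)
  obtain ⟨k, hk⟩ := hmem 0
  have hall' : ∀ n, f (n + 1) ∈ (run e x k).s := by
    intro n
    obtain ⟨j, hj⟩ := hmem n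
    by_contra hcon
    rcases le_total j k with h | h
    · exact hcon ((run_le e x h).1.1 hj)
    · have h1 := (run_le e x h).1.2 _ hj hcon _ hk
      have h2 : f (n + 1) ≤ f (0 + 1) := hf.antitone (by omega)
      exact absurd h1 (not_lt.2 h2)
  exact (Set.isWF_iff_no_descending_seq.1 (run_good e x k).1) (fun n => f (n + 1))
    (fun a b hab => hf (by omega)) hall'

/-- the data of the construction of the tree -/
structure Book (W : Type) [LinearOrder W] where
  X : W → ℕ → Bool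
  dd : W → W
  dd_le : ∀ ξ, dd ξ ≤ ξ
  xx : W → W
  surj : ∀ a b, ∃ ξ, dd ξ = a ∧ xx ξ = b
  en : ∀ δ : W, ℕ → Option ({η // η < δ} × ℚ × ℚ)
  en_inf : ∀ δ y N, ∃ i, N ≤ i ∧ en δ i = some y
  nonm : ∀ D : ℕ → List Bool → Prop, (∀ n s, ∃ s', s <+: s' ∧ D n s') →
    ∃ w, ∀ n, ∃ s, D n s ∧ ∀ k (h : k < s.length), X w k = s[k]

section

variable {W : Type} [LinearOrder W] [WellFoundedLT W] (B : Book W)

/-- the nodes of the tree -/
noncomputable def tt : W → Set ℝ :=
  (wellFounded_lt (α := W)).fix fun ξ ih =>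
    lim (fun k => (B.en (B.dd ξ) k).map fun y =>
      (ih y.1.1 (lt_of_lt_of_le y.1.2 (B.dd_le ξ)), y.2.1, y.2.2)) (B.X (B.xx ξ))

/-- the enumeration of the candidates below `δ` -/
noncomputable def ec (δ : W) (k : ℕ) : Option Cand :=
  (B.en δ k).map fun y => (tt B y.1.1, y.2.1, y.2.2)

theorem tt_eq (ξ : W) : tt B ξ = lim (ec B (B.dd ξ)) (B.X (B.xx ξ)) := by
  rw [tt, WellFounded.fix_eq]
  rfl

theorem node_tt (ξ : W) : Node (tt B ξ) := by
  rw [tt_eq]
  exact node_lim _ _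

theorem run_mem (δ : W) (x : ℕ → Bool) : ∀ k, (run (ec B δ) x k).s = ∅ ∨
    ∃ η < δ, (run (ec B δ) x k).s = tt B η
  | 0 => Or.inl rfl
  | k + 1 => by
    show (step (run (ec B δ) x k) (ec B δ k) (x k)).s = ∅ ∨ ∃ η < δ,
      (step (run (ec B δ) x k) (ec B δ k) (x k)).s = tt B η
    unfold ec
    cases h : B.en δ k with
    | none => exact run_mem δ x k
    | some y =>
      unfold step
      dsimp only [Option.map]
      split_ifs with h1
      · exact Or.inr ⟨y.1.1, y.1.2, rfl⟩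
      · exact run_mem δ x k

/-- The main property of the tree. -/
theorem capture (δ : W) (F : W → ℕ) : ∃ ξ, ∀ n,
    (∃ η < δ, Ext (tt B η) (tt B ξ) ∧ tt B η ≠ tt B ξ ∧ F η = n) ∨
    (∃ s : Set ℝ, (s = ∅ ∨ ∃ η < δ, s = tt B η) ∧ Ext s (tt B ξ) ∧ ∃ q : ℚ,
      (∀ a ∈ tt B ξ, a < (q : ℝ)) ∧
      ∀ η < δ, Ext s (tt B η) → (∀ a ∈ tt B η, a < (q : ℝ)) → F η ≠ n) := by
  classical
  set pt : List Bool → ℕ → Bool := fun s k => s.getD k false with hpt
  obtain ⟨w, hw⟩ := B.nonm (fun n s =>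
    (∃ η < δ, (run (ec B δ) (pt s) s.length).s = tt B η ∧ F η = n) ∨
    (∀ η < δ, Ext (run (ec B δ) (pt s) s.length).s (tt B η) →
      (∀ a ∈ tt B η, a < ((run (ec B δ) (pt s) s.length).q : ℝ)) → F η ≠ n)) (by
    intro n s
    by_cases h : ∀ η < δ, Ext (run (ec B δ) (pt s) s.length).s (tt B η) →
      (∀ a ∈ tt B η, a < ((run (ec B δ) (pt s) s.length).q : ℝ)) → F η ≠ n
    · exact ⟨s, List.prefix_rfl, Or.inr h⟩
    push Not at h
    obtain ⟨η, hη, h1, h2, h3⟩ := h
    set σ := run (ec B δ) (pt s) s.length with hσ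
    have hσg : Good σ := run_good _ _ _
    obtain ⟨hwf, m, hm, hmax⟩ := node_tt B η
    obtain ⟨r', hr1, hr2⟩ : ∃ r' : ℚ, max m (σ.r : ℝ) < (r' : ℝ) ∧ (r' : ℝ) < (σ.q : ℝ) :=
      exists_rat_btwn (max_lt (h2 m hm) (Rat.cast_lt.2 hσg.2.2))
    obtain ⟨q', hq1, hq2⟩ : ∃ q' : ℚ, r' < q' ∧ q' < σ.q := exists_between (Rat.cast_lt.1 hr2)
    obtain ⟨i, hi, hi'⟩ := B.en_inf δ (⟨η, hη⟩, r', q') s.length
    set s' : List Bool := s ++ (List.replicate (i - s.length) false ++ [true]) with hs'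
    have hlen : s'.length = i + 1 := by simp [hs']; omega
    have hg1 : ∀ k < s.length, pt s' k = pt s k := by
      intro k hk
      simp only [hpt, hs']
      rw [List.getD_append _ _ _ _ hk]
    have hg2 : ∀ k, s.length ≤ k → k < i → pt s' k = false := by
      intro k hk hk'
      simp only [hpt, hs']
      rw [List.getD_append_right _ _ _ _ hk, List.getD_append _ _ _ _ (by simp; omega)]
      simp [List.getD]
    have hg3 : pt s' i = true := by
      simp only [hpt, hs']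
      rw [List.getD_append_right _ _ _ _ hi, List.getD_append_right _ _ _ _ (by simp)]
      simp
    have h4 : ∀ k, s.length ≤ k → k ≤ i → run (ec B δ) (pt s') k = σ := by
      intro k hk
      induction k, hk using Nat.le_induction with
      | base =>
        intro _
        exact run_congr _ hg1 _ le_rfl
      | succ k hk ih =>
        intro hki
        show step (run (ec B δ) (pt s') k) (ec B δ k) (pt s' k) = σ
        rw [ih (by omega), hg2 k hk (by omega)]
        cases ec B δ k with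
        | none => rfl
        | some y => simp [step]
    have h5 : run (ec B δ) (pt s') (i + 1) = ⟨tt B η, r', q'⟩ := by
      show step (run (ec B δ) (pt s') i) (ec B δ i) (pt s' i) = _
      rw [h4 i hi le_rfl, hg3]
      unfold ec
      rw [hi']
      simp only [step, Option.map]
      rw [if_pos]
      refine ⟨trivial, h1, fun a ha => ?_, ?_, hq1, hq2, hwf⟩
      · exact lt_of_le_of_lt ((hmax a ha).trans (le_max_left _ _)) hr1
      · exact Rat.cast_lt.1 (lt_of_le_of_lt (le_max_right _ _) hr1)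
    refine ⟨s', List.prefix_append _ _, Or.inl ⟨η, hη, ?_, h3⟩⟩
    rw [hlen, h5])
  obtain ⟨ξ, hξ1, hξ2⟩ := B.surj δ w
  have hξ : tt B ξ = lim (ec B δ) (B.X w) := by rw [tt_eq, hξ1, hξ2]
  refine ⟨ξ, fun n => ?_⟩
  obtain ⟨s, hs, hs'⟩ := hw n
  have hrun : run (ec B δ) (pt s) s.length = run (ec B δ) (B.X w) s.length := by
    refine run_congr _ (fun k hk => ?_) _ le_rfl
    rw [hs' k hk]
    simp [hpt, List.getD, hk]
  simp only [hrun] at hs
  rcases hs with ⟨η, hη, h1, h2⟩ | h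
  · left
    refine ⟨η, hη, ?_, ?_, h2⟩
    · rw [hξ, ← h1]
      exact ext_lim _ _ _
    · rw [hξ, ← h1]
      exact run_ne_lim _ _ _
  · right
    refine ⟨(run (ec B δ) (B.X w) s.length).s, run_mem B δ _ _, ?_,
      (run (ec B δ) (B.X w) s.length).q, ?_, h⟩
    · rw [hξ]
      exact ext_lim _ _ _
    · intro a ha
      rw [hξ] at ha
      exact lim_lt ha _

end

end Pool.Agent.R582.NR
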