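import Mathlib
import Pool.Agent.R582.NR.Tree
import Pool.Agent.R582.NR.Defs
import Pool.Agent.H631R2.Arith

set_option autoImplicit false

/-!
# The tree can not be specialised without adding reals
-/

namespace Pool.Agent.R582.NR

open Cardinal Set
open Pool.Agent.Helper292.SP (fnot fand fall fimp fiff fex fground meets IsFun mem_fex mem_fimp
  not_fex down_meets meets_cst meets_of_mem down_IsFun IsFun_fun)
open Pool.Agent.H631R2 (meets_of_dense mem_fiff)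

section

variable {P : Type} [Preorder P]

/-- a maximal antichain in a set which is dense below `p` -/
theorem exists_antichain {O : Set P} {p : P} (hO : ∀ q ≤ p, ∃ r ≤ q, r ∈ O) :
    ∃ A : Set P, A ⊆ O ∧ (∀ a ∈ A, ∀ b ∈ A, a ≠ b → ¬ ∃ r, r ≤ a ∧ r ≤ b) ∧
      ∀ q ≤ p, ∃ a ∈ A, ∃ r, r ≤ q ∧ r ≤ a := by
  obtain ⟨A, hA⟩ := zorn_subset {A : Set P | A ⊆ O ∧
    ∀ a ∈ A, ∀ b ∈ A, a ≠ b → ¬ ∃ r, r ≤ a ∧ r ≤ b} (by
    intro c hc hchain
    refine ⟨⋃₀ c, ⟨sUnion_subset fun S hS => (hc hS).1, ?_⟩, fun S hS => subset_sUnion_of_mem hS⟩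
    rintro a ⟨S, hS, ha⟩ b ⟨S', hS', hb⟩ hne
    rcases hchain.total hS hS' with h | h
    · exact (hc hS').2 a (h ha) b hb hne
    · exact (hc hS).2 a ha b (h hb) hne)
  refine ⟨A, hA.prop.1, hA.prop.2, fun q hq => ?_⟩
  by_contra hcon
  push Not at hcon
  obtain ⟨u, hu, huO⟩ := hO q hq
  have h2 : insert u A ∈ {A : Set P | A ⊆ O ∧
      ∀ a ∈ A, ∀ b ∈ A, a ≠ b → ¬ ∃ r, r ≤ a ∧ r ≤ b} := by
    refine ⟨insert_subset huO hA.prop.1, ?_⟩
    rintro a (rfl | ha) b (rfl | hb) hne ⟨v, hv, hv'⟩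
    · exact hne rfl
    · exact hcon b hb v (hv.trans hu) hv'
    · exact hcon a ha v (hv'.trans hu) hv
    · exact hA.prop.2 a ha b hb hne ⟨v, hv, hv'⟩
  have h3 : u ∈ A := hA.le_of_ge h2 (subset_insert u A) (mem_insert u A)
  exact hcon u h3 u hu le_rfl

/-- If no reals are added, then countably many choices from a set of size at most the continuum
are decided. -/
theorem decide_seq (hP : NoNewReals P) {X : Type} (c : X → ℕ → Prop) (hc : Function.Injective c)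
    (D : ℕ → X → Set P) (hD : ∀ i x, ∀ q ∈ D i x, ∀ r ≤ q, r ∈ D i x) (p : P)
    (hp : ∀ i, ∀ q ≤ p, ∃ r ≤ q, ∃ x, r ∈ D i x) :
    ∃ q ≤ p, ∃ g : ℕ → X, ∀ i, ∀ r ≤ q, ∃ s ≤ r, s ∈ D i (g i) := by
  classical
  have h1 : ∀ i, ∃ A : Set P, A ⊆ {r | ∃ x, r ∈ D i x} ∧
      (∀ a ∈ A, ∀ b ∈ A, a ≠ b → ¬ ∃ r, r ≤ a ∧ r ≤ b) ∧
      ∀ q ≤ p, ∃ a ∈ A, ∃ r, r ≤ q ∧ r ≤ a := fun i => exists_antichain (hp i)
  choose A hA1 hA2 hA3 using h1
  have hX : ∀ (i : ℕ) (a : P), ∃ x : X, a ∈ A i → a ∈ D i x := by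
    intro i a
    by_cases ha : a ∈ A i
    · obtain ⟨x, hx⟩ := hA1 i ha
      exact ⟨x, fun _ => hx⟩
    · obtain ⟨r, -, x, -⟩ := hp i p le_rfl
      exact ⟨x, fun h => absurd h ha⟩
  choose lab hlab using hX
  obtain ⟨q, hq, a, ha⟩ := mem_fex.1 (hP (fun n => {b | b ∈ A n.unpair.1 ∧
    c (lab n.unpair.1 b) n.unpair.2}) p) p le_rfl
  have key : ∀ i, ∀ r ≤ q, ∀ b ∈ A i, r ≤ b → ∀ k, c (lab i b) k ↔ a (Nat.pair i k) := by
    intro i r hr b hb hrb k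
    have h2 := mem_fiff.1 (ha (Nat.pair i k))
    simp only [Nat.unpair_pair] at h2
    constructor
    · intro h
      obtain ⟨s, -, hs⟩ := h2.1 r hr fun t ht => ⟨t, le_rfl, b, ⟨hb, h⟩, ht.trans hrb⟩
      exact hs
    · intro h
      obtain ⟨s, hs, hs'⟩ := h2.2 r hr h
      obtain ⟨t, ht, b', ⟨hb', hcb⟩, htb⟩ := hs' s le_rfl
      have : b = b' := by
        by_contra hne
        exact hA2 i b hb b' hb' hne ⟨t, (ht.trans hs).trans hrb, htb⟩
      rw [this]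
      exact hcb
  have h3 : ∀ i, ∃ x : X, ∀ r ≤ q, ∃ s ≤ r, s ∈ D i x := by
    intro i
    obtain ⟨b, hb, r, hr, hrb⟩ := hA3 i q hq
    refine ⟨lab i b, fun r' hr' => ?_⟩
    obtain ⟨b', hb', s, hs, hsb⟩ := hA3 i r' (hr'.trans hq)
    have : lab i b' = lab i b := by
      apply hc
      funext k
      exact propext ((key i s (hs.trans hr') b' hb' hsb k).trans (key i r hr b hb hrb k).symm)
    exact ⟨s, hs, this ▸ hD i _ b' (hlab i b' hb') s hsb⟩
  choose g hg using h3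
  exact ⟨q, hq, g, hg⟩

end

section

variable {W : Type} [LinearOrder W] [WellFoundedLT W] (B : Book W)

/-- the set of the nodes of the tree -/
def TT : Type := {s : Set ℝ // ∃ ξ, tt B ξ = s}

/-- the order of the tree -/
def rr (s t : TT B) : Prop := Ext s.1 t.1 ∧ s.1 ≠ t.1

/-- the node with the index `ξ` -/
noncomputable def nd (ξ : W) : TT B := ⟨tt B ξ, ξ, rfl⟩

variable {P : Type} [Preorder P]

/-- `w` witnesses the extension property -/
def Wit (s : Set ℝ) (q : ℚ) (w : W) : Prop := Ext s (tt B w) ∧ ∀ a ∈ tt B w, a < (q : ℝ)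

/-- `y` is a closing-off point for `x` -/
def Cl (V : W → ℕ → Set P) (x y : W) : Set P :=
  {c | ∀ s : Set ℝ, (s = ∅ ∨ ∃ η < x, s = tt B η) → ∀ (q : ℚ) (n : ℕ), ∀ c' ≤ c, ∀ w,
    Wit B s q w → c' ∈ V w n → ∃ c'' ≤ c', ∃ w' < y, Wit B s q w' ∧ c'' ∈ V w' n}

/-- `y` is the least closing-off point for `x` -/
def Hl (V : W → ℕ → Set P) (x y : W) : Set P :=
  {c | c ∈ Cl B V x y ∧ x < y ∧ ∀ y' < y, x < y' → ∀ c' ≤ c, c' ∉ Cl B V x y'}

/-- `x` is the `k`-th point of the sequence of closing-off points -/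
def DD (V : W → ℕ → Set P) (x0 : W) : ℕ → W → Set P
  | 0 => fun x => {_c | x = x0}
  | k + 1 => fun y => {c | ∃ x, c ∈ DD V x0 k x ∧ c ∈ Hl B V x y}

theorem down_Cl {V : W → ℕ → Set P} {x y : W} {c d : P} (h : c ∈ Cl B V x y) (hd : d ≤ c) :
    d ∈ Cl B V x y := fun s hs q n c' hc' => h s hs q n c' (hc'.trans hd)

theorem down_Hl {V : W → ℕ → Set P} {x y : W} {c d : P} (h : c ∈ Hl B V x y) (hd : d ≤ c) :
    d ∈ Hl B V x y := ⟨down_Cl B h.1 hd, h.2.1, fun y' hy hx c' hc' => h.2.2 y' hy hx c' (hc'.trans hd)⟩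

theorem down_DD {V : W → ℕ → Set P} {x0 : W} : ∀ {k : ℕ} {x : W} {c d : P}, c ∈ DD B V x0 k x →
    d ≤ c → d ∈ DD B V x0 k x
  | 0, _, _, _, h, _ => h
  | _ + 1, _, _, _, ⟨x', h1, h2⟩, hd => ⟨x', down_DD h1 hd, down_Hl B h2 hd⟩

theorem Hl_unique {V : W → ℕ → Set P} {x y y' : W} {c : P} (h : c ∈ Hl B V x y)
    (h' : c ∈ Hl B V x y') : y = y' := by
  rcases lt_trichotomy y y' with hlt | heq | hlt
  · exact absurd h.1 (h'.2.2 y hlt h.2.1 c le_rfl)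
  · exact heq
  · exact absurd h'.1 (h.2.2 y' hlt h'.2.1 c le_rfl)

theorem DD_unique {V : W → ℕ → Set P} {x0 : W} : ∀ {k : ℕ} {x x' : W} {c : P},
    c ∈ DD B V x0 k x → c ∈ DD B V x0 k x' → x = x'
  | 0, _, _, _, h, h' => (h : _ = x0).trans (h' : _ = x0).symm
  | _ + 1, _, _, _, ⟨y, h1, h2⟩, ⟨y', h1', h2'⟩ => by
    have := DD_unique h1 h1'
    subst this
    exact Hl_unique B h2 h2'

/-- codes for the elements of `Option W` -/
def oc (c : W → ℕ → Prop) : Option W → ℕ → Prop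
  | none => fun _ => False
  | some w => fun n => n = 0 ∨ ∃ m, n = m + 1 ∧ c w m

omit [LinearOrder W] [WellFoundedLT W] in
theorem oc_inj {c : W → ℕ → Prop} (hc : Function.Injective c) : Function.Injective (oc c) := by
  rintro (_ | w) (_ | w') h
  · rfl
  · exact absurd (congrFun h 0) (by simp [oc])
  · exact absurd (congrFun h 0) (by simp [oc])
  · congr 1
    apply hc
    funext m
    have := congrFun h (m + 1)
    simpa [oc] using this

theorem not_spec [Nonempty W] (hW : ∀ w : W, (Iio w).Countable)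
    (hb : ∀ f : ℕ → W, ∃ b, ∀ n, f n < b) (c : W → ℕ → Prop) (hc : Function.Injective c) :
    ¬ SpecNoReals (rr B) := by
  classical
  rintro ⟨P, _, ⟨p0⟩, hP, hS⟩
  obtain ⟨p, -, f, hf1, hf2⟩ := mem_fex.1 (hS p0) p0 le_rfl
  set V : W → ℕ → Set P := fun w n => meets (f (nd B w) n) with hV
  have hVd : ∀ w n, ∀ q ∈ V w n, ∀ r ≤ q, r ∈ V w n := fun w n q hq r hr => down_meets hq hr
  have hV1 : ∀ w, ∀ q ≤ p, ∃ r ≤ q, ∃ n, r ∈ V w n := fun w q hq => mem_fex.1 (hf1.1 (nd B w)) q hq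
  have hV2 : ∀ w n m, ∀ q ≤ p, q ∈ V w n → q ∈ V w m → n = m := fun w n m q hq h h' =>
    IsFun_fun f p hf1 q hq _ _ _ h h'
  have hV3 : ∀ w w' n, ∀ q ≤ p, Ext (tt B w) (tt B w') → tt B w ≠ tt B w' → q ∈ V w n →
      q ∈ V w' n → False := by
    intro w w' n q hq h1 h2 h3 h4
    obtain ⟨r, hr, hr'⟩ := mem_fimp.1 (hf2 (nd B w) (nd B w')) q hq ⟨h1, h2⟩
    exact hr' n r le_rfl ⟨down_meets h3 hr, down_meets h4 hr⟩
  -- the closing-off points exist
  have claim1 : ∀ x, ∀ q ≤ p, ∃ r ≤ q, ∃ y, x < y ∧ r ∈ Cl B V x y := by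
    intro x q hq
    have : Countable (Iio x) := (hW x).to_subtype
    obtain ⟨e, he⟩ := exists_surjective_nat (Option (Iio x) × ℚ × ℕ)
    set sx : Option (Iio x) → Set ℝ := fun o => match o with
      | none => ∅
      | some η => tt B η.1 with hsx
    obtain ⟨r, hr, g, hg⟩ := decide_seq hP (oc c) (oc_inj hc) (fun i z => match z with
      | none => {c' | ∀ w, Wit B (sx (e i).1) (e i).2.1 w → ∀ c'' ≤ c', c'' ∉ V w (e i).2.2}
      | some w => {c' | Wit B (sx (e i).1) (e i).2.1 w ∧ c' ∈ V w (e i).2.2}) (by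
        rintro i (_ | w) c' hc' d hd
        · intro w hw c'' hc''
          exact hc' w hw c'' (hc''.trans hd)
        · exact ⟨hc'.1, hVd _ _ _ hc'.2 _ hd⟩) q (by
        intro i q' hq'
        by_cases h : ∀ w, Wit B (sx (e i).1) (e i).2.1 w → ∀ c'' ≤ q', c'' ∉ V w (e i).2.2
        · exact ⟨q', le_rfl, none, h⟩
        · push Not at h
          obtain ⟨w, hw, c'', hc'', hcV⟩ := h
          exact ⟨c'', hc'', some w, hw, hcV⟩)
    obtain ⟨b, hb'⟩ := hb fun i => max x ((g i).getD x)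
    refine ⟨r, hr, b, lt_of_le_of_lt (le_max_left _ _) (hb' 0), ?_⟩
    intro s hs qq n c' hc' w hw hcV
    obtain ⟨o, ho⟩ : ∃ o : Option (Iio x), sx o = s := by
      rcases hs with hs | ⟨η, hη, hs⟩
      · exact ⟨none, hs.symm⟩
      · exact ⟨some ⟨η, hη⟩, hs.symm⟩
    obtain ⟨i, hi⟩ := he (o, qq, n)
    obtain ⟨t, ht, htD⟩ := hg i c' hc'
    rw [hi] at htD
    cases hgi : g i with
    | none =>
      rw [hgi] at htD
      exact absurd (hVd _ _ _ hcV _ ht) (htD w (by simpa [ho] using hw) t le_rfl)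
    | some w' =>
      rw [hgi] at htD
      obtain ⟨h1, h2⟩ := htD
      refine ⟨t, ht, w', ?_, by simpa [ho] using h1, h2⟩
      have := hb' i
      rw [hgi] at this
      exact lt_of_le_of_lt (le_max_right _ _) this
  have claim2 : ∀ x, ∀ q ≤ p, ∃ r ≤ q, ∃ y, r ∈ Hl B V x y := by
    intro x q hq
    obtain ⟨r, hr, y, hy⟩ := claim1 x q hq
    have hne : {y | x < y ∧ ∃ r ≤ q, r ∈ Cl B V x y}.Nonempty := ⟨y, hy.1, r, hr, hy.2⟩
    obtain ⟨h1, r', hr', h2⟩ := wellFounded_lt.min_mem _ hne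
    refine ⟨r', hr', _, h2, h1, fun y' hy' hxy' c' hc' hcon => ?_⟩
    exact wellFounded_lt.not_lt_min _ (show y' ∈ {y | x < y ∧ ∃ r ≤ q, r ∈ Cl B V x y} from
      ⟨hxy', c', hc'.trans hr', hcon⟩) hy'
  obtain ⟨x0⟩ := ‹Nonempty W›
  have claim3 : ∀ k, ∀ q ≤ p, ∃ r ≤ q, ∃ x, r ∈ DD B V x0 k x := by
    intro k
    induction k with
    | zero => exact fun q _ => ⟨q, le_rfl, x0, rfl⟩
    | succ k ih =>
      intro q hq
      obtain ⟨r, hr, x, hx⟩ := ih q hq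
      obtain ⟨r', hr', y, hy⟩ := claim2 x r (hr.trans hq)
      exact ⟨r', hr'.trans hr, y, x, down_DD B hx hr', hy⟩
  obtain ⟨p1, hp1, g, hg⟩ := decide_seq hP c hc (fun k x => DD B V x0 k x)
    (fun k x q hq r hr => down_DD B hq hr) p claim3
  have hgH : ∀ k, ∀ r ≤ p1, ∃ s ≤ r, s ∈ Hl B V (g k) (g (k + 1)) := by
    intro k r hr
    obtain ⟨s, hs, hs'⟩ := hg k r hr
    obtain ⟨t, ht, x, hx, hx'⟩ := hg (k + 1) s (hs.trans hr)
    have : x = g k := DD_unique B hx (down_DD B hs' ht)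
    subst this
    exact ⟨t, ht.trans hs, hx'⟩
  have hmono : ∀ k, g k < g (k + 1) := by
    intro k
    obtain ⟨s, -, hs⟩ := hgH k p1 le_rfl
    exact hs.2.1
  -- the limit
  have hne : {d | ∀ k, g k < d}.Nonempty := hb g
  set δ := wellFounded_lt.min _ hne with hδ
  have hδ1 : ∀ k, g k < δ := wellFounded_lt.min_mem _ hne
  have hδ2 : ∀ η < δ, ∃ k, η < g k := by
    intro η hη
    by_contra hcon
    push Not at hcon
    refine wellFounded_lt.not_lt_min _ (show η ∈ {d | ∀ k, g k < d} from fun k => ?_) hη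
    exact (hmono k).trans_le (hcon (k + 1))
  have hcl : p1 ∈ Cl B V δ δ := by
    intro s hs q n c' hc' w hw hcV
    obtain ⟨k, hk⟩ : ∃ k, s = ∅ ∨ ∃ η < g k, s = tt B η := by
      rcases hs with hs | ⟨η, hη, hs⟩
      · exact ⟨0, Or.inl hs⟩
      · obtain ⟨k, hk⟩ := hδ2 η hη
        exact ⟨k, Or.inr ⟨η, hk, hs⟩⟩
    obtain ⟨t, ht, ht'⟩ := hgH k c' hc'
    obtain ⟨c'', hc'', w', hw', h1, h2⟩ := ht'.1 s hk q n t le_rfl w hw (hVd _ _ _ hcV _ ht)
    exact ⟨c'', hc''.trans ht, w', hw'.trans (hδ1 _), h1, h2⟩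
  -- the values below `δ` are decided
  obtain ⟨p2, hp2, F, hF⟩ : ∃ p2 ≤ p1, ∃ F : W → ℕ, ∀ η < δ, p2 ∈ V η (F η) := by
    have : Countable (Iio δ) := (hW δ).to_subtype
    have : Nonempty (Iio δ) := ⟨⟨g 0, hδ1 0⟩⟩
    obtain ⟨e, he⟩ := exists_surjective_nat (Iio δ)
    obtain ⟨r, hr, h, hh⟩ := decide_seq hP (fun (n : ℕ) (k : ℕ) => k = n)
      (fun n m hnm => by simpa using congrFun hnm n) (fun i n => V (e i).1 n)
      (fun i n q hq r hr => hVd _ _ _ hq _ hr) p1 (fun i q hq => hV1 _ q (hq.trans hp1))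
    have h2 : ∀ η, ∃ n, η < δ → r ∈ V η n := by
      intro η
      by_cases hη : η < δ
      · obtain ⟨i, hi⟩ := he ⟨η, hη⟩
        refine ⟨h i, fun _ => ?_⟩
        have h3 := hh i
        rw [hi] at h3
        exact meets_of_dense h3
      · exact ⟨0, fun h => absurd h hη⟩
    choose F hF using h2
    exact ⟨r, hr, F, hF⟩
  obtain ⟨ξ, hξ⟩ := capture B δ F
  obtain ⟨p3, hp3, n, hn⟩ := hV1 ξ p2 (hp2.trans hp1)
  have hle : p3 ≤ p := hp3.trans (hp2.trans hp1)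
  rcases hξ n with ⟨η, hη, h1, h2, h3⟩ | ⟨s, hs, h1, q, h2, h3⟩
  · refine hV3 η ξ n p3 hle h1 h2 ?_ hn
    rw [← h3]
    exact hVd _ _ _ (hF η hη) _ hp3
  · obtain ⟨c'', hc'', w', hw', h4, h5⟩ := hcl s hs q n p3 (hp3.trans hp2) ξ ⟨h1, h2⟩ hn
    exact h3 w' hw' h4.1 h4.2 (hV2 w' _ _ c'' (hc''.trans hle)
      (hVd _ _ _ (hF w' hw') _ (hc''.trans hp3)) h5)

end

end Pool.Agent.R582.NR
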