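import Mathlib
import Pool.Agent.R582.NR.NonSpec
import Pool.Agent.R582.Coh.Forced

set_option autoImplicit false

/-!
# The tree is an Aronszajn tree
-/

namespace Pool.Agent.R582.NR

open Cardinal Set Ordinal
open Pool.Agent.Helper292.SP (fnot fand fall fimp fiff fex fground meets IsFun mem_fex mem_fimp
  not_fex down_meets meets_cst meets_of_mem)
open Pool.Agent.H631R2 (meets_of_dense mem_fiff)
open Pool.Agent.R582.Coh (mem_fex_self isFun_cst)

/-- A special tree is specialised by the trivial forcing. -/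
theorem special_spec {T : Type} {r : T → T → Prop} (h : Special r) : SpecNoReals r := by
  obtain ⟨f, hf⟩ := h
  refine ⟨Unit, inferInstance, ⟨()⟩, ?_, ?_⟩
  · intro x p
    refine mem_fex_self (fun n => p ∈ meets (x n)) fun q _ n => mem_fiff.2 ⟨?_, ?_⟩
    · intro q' _ hq'
      exact ⟨q', le_rfl, hq'⟩
    · intro q' _ hq'
      exact ⟨q', le_rfl, hq'⟩
  · intro p
    refine mem_fex_self (fun s n => {_p : Unit | f s = n}) fun q _ => ⟨isFun_cst f q, ?_⟩
    intro s t
    refine mem_fimp.2 fun q' _ hq' => ⟨q', le_rfl, fun n q'' _ hcon => ?_⟩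
    obtain ⟨h1, h2⟩ := hcon
    rw [meets_cst] at h1 h2
    exact hf s t hq' (h1.trans h2.symm)

/-- There is no uncountable well-ordered set of reals. -/
theorem no_mono (f : (Ordinal.omega.{0} 1).ToType → ℝ) (hf : ∀ a b, a < b → f a < f b) : False := by
  have : NoMaxOrder (Ordinal.omega.{0} 1).ToType := by
    rw [← Cardinal.ord_aleph]
    exact Cardinal.noMaxOrder (Cardinal.aleph0_le_aleph 1)
  have h1 : ∀ a : (Ordinal.omega.{0} 1).ToType, ∃ q : ℚ, f a < q ∧ ∀ b, a < b → (q : ℝ) ≤ f b := by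
    intro a
    have hne : (Ioi a).Nonempty := exists_gt a
    have h2 : a < wellFounded_lt.min _ hne := wellFounded_lt.min_mem _ hne
    obtain ⟨q, hq1, hq2⟩ := exists_rat_btwn (hf _ _ h2)
    refine ⟨q, hq1, fun b hb => ?_⟩
    have h3 : wellFounded_lt.min _ hne ≤ b := not_lt.1 (wellFounded_lt.not_lt_min _ hb)
    rcases h3.lt_or_eq with h4 | h4
    · exact hq2.le.trans (hf _ _ h4).le
    · rw [← h4]
      exact hq2.le
  choose q hq1 hq2 using h1
  have hinj : Function.Injective q := by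
    intro a b hab
    by_contra hne
    rcases lt_or_gt_of_ne hne with h | h
    · have := (hq2 a b h).trans_lt (hq1 b)
      rw [hab] at this
      exact lt_irrefl _ this
    · have := (hq2 b a h).trans_lt (hq1 a)
      rw [hab] at this
      exact lt_irrefl _ this
  have h2 := Cardinal.mk_le_of_injective hinj
  rw [Cardinal.mk_toType, Ordinal.card_omega, Cardinal.mkRat] at h2
  exact absurd h2 (not_le.2 Cardinal.aleph0_lt_aleph_one)

section Levels

variable {T : Type} {r : T → T → Prop}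

/-- the height of a node -/
noncomputable def ht (h : IsTree r) (t : T) : Ordinal.{0} :=
  @Ordinal.type {s // r s t} (fun a b => r a.1 b.1) (h.wo t)

theorem mem_Lev (h : IsTree r) (t : T) : t ∈ Lev r (ht h t) := ⟨h.wo t, rfl⟩

theorem ht_eq (h : IsTree r) {t : T} {α : Ordinal.{0}} (ht' : t ∈ Lev r α) : ht h t = α := by
  obtain ⟨_, h'⟩ := ht'
  exact h'

theorem ht_typein (h : IsTree r) (t : T) (s : {s // r s t}) :
    ht h s.1 = @Ordinal.typein {s // r s t} (fun a b => r a.1 b.1) (h.wo t) s := by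
  have := h.wo t
  have := h.wo s.1
  rw [← Ordinal.type_subrel]
  refine Ordinal.type_eq.2 ⟨⟨⟨fun u => ⟨⟨u.1, h.trans _ _ _ u.2 s.2⟩, u.2⟩, fun u => ⟨u.1.1, u.2⟩,
    fun u => rfl, fun u => rfl⟩, Iff.rfl⟩⟩

theorem ht_lt (h : IsTree r) {s t : T} (hst : r s t) : ht h s < ht h t := by
  have := h.wo t
  rw [ht_typein h t ⟨s, hst⟩]
  exact Ordinal.typein_lt_type _ _

theorem exists_ht (h : IsTree r) {t : T} {α : Ordinal.{0}} (hα : α < ht h t) :
    ∃ s, s ∈ Lev r α := by
  have := h.wo t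
  obtain ⟨s, hs⟩ := Ordinal.typein_surj (fun a b : {s // r s t} => r a.1 b.1) hα
  refine ⟨s.1, ?_⟩
  rw [← hs, ← ht_typein h t s]
  exact mem_Lev h s.1

/-- In a tree which is not special the levels below `ω₁` are not empty. -/
theorem lev_nonempty (h : IsTree r) (hs : ¬ Special r) (α : Ordinal.{0})
    (hα : α < Ordinal.omega 1) : (Lev r α).Nonempty := by
  by_contra hcon
  have h1 : ∀ t, ht h t < α := by
    intro t
    by_contra hlt
    rcases (not_lt.1 hlt).lt_or_eq with h2 | h2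
    · exact hcon (exists_ht h h2)
    · exact hcon ⟨t, h2 ▸ mem_Lev h t⟩
  have h2 : Countable α.ToType := by
    rw [← Cardinal.mk_le_aleph0_iff, Cardinal.mk_toType, ← Cardinal.lt_aleph_one_iff]
    exact Cardinal.lt_ord.1 (by rwa [Cardinal.ord_aleph])
  obtain ⟨j, hj⟩ := exists_injective_nat α.ToType
  have h3 : ∀ t, ∃ x : α.ToType, Ordinal.typein (α := α.ToType) (· < ·) x = ht h t := fun t =>
    Ordinal.typein_surj _ (by rw [Ordinal.type_toType]; exact h1 t)
  choose x hx using h3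
  refine hs ⟨fun t => j (x t), fun s t hst heq => ?_⟩
  have h4 := ht_lt h hst
  rw [← hx s, ← hx t, hj heq] at h4
  exact lt_irrefl _ h4

end Levels

section

variable {W : Type} [LinearOrder W] [WellFoundedLT W] (B : Book W)

theorem node_TT (t : TT B) : Node t.1 := by
  obtain ⟨ξ, hξ⟩ := t.2
  rw [← hξ]
  exact node_tt B ξ

/-- the largest element of a node -/
noncomputable def mx (t : TT B) : ℝ := (node_TT B t).2.choose

theorem mx_mem (t : TT B) : mx B t ∈ t.1 := (node_TT B t).2.choose_spec.1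

theorem le_mx (t : TT B) {a : ℝ} (ha : a ∈ t.1) : a ≤ mx B t := (node_TT B t).2.choose_spec.2 a ha

theorem mx_lt {s t : TT B} (h : rr B s t) : mx B s < mx B t := by
  obtain ⟨h1, h2⟩ := h
  obtain ⟨a, ha, has⟩ : ∃ a ∈ t.1, a ∉ s.1 := by
    by_contra hcon
    push Not at hcon
    exact h2 (Subset.antisymm h1.1 hcon)
  exact (h1.2 a ha has _ (mx_mem B s)).trans_le (le_mx B t ha)

theorem sub_of_le {s s' t : TT B} (h : Ext s.1 t.1) (h' : Ext s'.1 t.1) (hle : mx B s ≤ mx B s') :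
    s.1 ⊆ s'.1 := by
  intro b hb
  by_contra hbs
  exact absurd (h'.2 b (h.1 hb) hbs _ (mx_mem B s')) (not_lt.2 ((le_mx B s hb).trans hle))

theorem tri {s s' t : TT B} (h : rr B s t) (h' : rr B s' t) :
    rr B s s' ∨ s = s' ∨ rr B s' s := by
  have key : ∀ {s s' : TT B}, Ext s.1 t.1 → Ext s'.1 t.1 → mx B s < mx B s' → rr B s s' := by
    intro s s' h h' hlt
    have h1 := sub_of_le B h h' hlt.le
    refine ⟨⟨h1, fun a ha has => h.2 a (h'.1 ha) has⟩, fun heq => ?_⟩
    have : mx B s' ≤ mx B s := le_mx B s (by rw [heq]; exact mx_mem B s')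
    exact absurd hlt (not_lt.2 this)
  rcases lt_trichotomy (mx B s) (mx B s') with hlt | heq | hlt
  · exact Or.inl (key h.1 h'.1 hlt)
  · exact Or.inr (Or.inl (Subtype.ext (Subset.antisymm (sub_of_le B h.1 h'.1 heq.le)
      (sub_of_le B h'.1 h.1 heq.ge))))
  · exact Or.inr (Or.inr (key h'.1 h.1 hlt))

theorem isTree : IsTree (rr B) where
  irrefl := fun _ h => h.2 rfl
  trans := fun s t u h1 h2 => by
    refine ⟨h1.1.trans h2.1, fun heq => ?_⟩
    have := (mx_lt B h1).trans (mx_lt B h2)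
    have h3 : s = u := Subtype.ext heq
    rw [h3] at this
    exact lt_irrefl _ this
  wo := fun t => by
    have hwf : WellFounded (fun a b : {s // rr B s t} => rr B a.1 b.1) := by
      have h1 : WellFounded (fun a b : t.1 => (a : ℝ) < b) := (node_TT B t).1
      refine Subrelation.wf (fun {a b} hab => ?_) (InvImage.wf
        (fun a : {s // rr B s t} => (⟨mx B a.1, a.2.1.1 (mx_mem B a.1)⟩ : t.1)) h1)
      exact mx_lt B hab
    exact {
      wf := hwf
      trichotomous := fun a b h1 h2 => by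
        rcases tri B a.2 b.2 with h | h | h
        · exact absurd h h1
        · exact Subtype.ext h
        · exact absurd h h2 }

theorem isAronszajn (hs : ¬ Special (rr B)) : IsAronszajn #(TT B) (rr B) where
  tree := isTree B
  height := lev_nonempty (isTree B) hs
  height' := by
    rw [Set.eq_empty_iff_forall_notMem]
    rintro t ⟨h1, h2⟩
    obtain ⟨e⟩ := Ordinal.type_eq.1 ((Ordinal.type_toType (Ordinal.omega 1)).trans h2.symm)
    exact no_mono (fun a => mx B (e a).1) fun a b hab => mx_lt B (e.map_rel_iff.2 hab)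
  levels := fun α => Cardinal.mk_set_le _
  no_branch := ⟨fun e => no_mono (fun a => mx B (e a)) fun a b hab => mx_lt B (e.map_rel_iff.2 hab)⟩

theorem noNumber_le (hs : ¬ SpecNoReals (rr B)) : noNumber ≤ #W := by
  have h0 : ¬ Special (rr B) := fun h => hs (special_spec h)
  have h1 : #(TT B) ≤ #W := Cardinal.mk_le_of_surjective (f := nd B) (by
    rintro ⟨s, ξ, hξ⟩
    exact ⟨ξ, Subtype.ext hξ⟩)
  refine le_trans (csInf_le' ⟨?_, TT B, rr B, isAronszajn B h0, rfl, hs⟩) h1
  by_contra hcon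
  have : Countable (TT B) := Cardinal.mk_le_aleph0_iff.1 (not_le.1 hcon).le
  obtain ⟨f, hf⟩ := exists_injective_nat (TT B)
  exact h0 ⟨f, fun s t hst heq => (isTree B).irrefl t (by rw [hf heq] at hst; exact hst)⟩

end

/-- In ZFC the cardinal is at least `ℵ₁` if it is defined by a tree. -/
theorem aleph_one_le {l : Cardinal.{0}} {T : Type} {r : T → T → Prop} (h : IsAronszajn l r)
    (hl : #T = l) : ℵ_ 1 ≤ l := by
  rw [← hl]
  have h1 : ∀ a : (Ordinal.omega.{0} 1).ToType,
      (Lev r (Ordinal.typein (α := (Ordinal.omega.{0} 1).ToType) (· < ·) a)).Nonempty := fun a =>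
    h.height _ (Ordinal.typein_lt_self a)
  choose t ht' using h1
  have hinj : Function.Injective t := by
    intro a b hab
    have h2 := ht_eq h.tree (ht' a)
    have h3 := ht_eq h.tree (ht' b)
    rw [hab, h3] at h2
    exact Ordinal.typein_injective _ h2.symm
  have h4 := Cardinal.mk_le_of_injective hinj
  rwa [Cardinal.mk_toType, Ordinal.card_omega] at h4

/-- The data exist if there is a nonmeager set of size `ℵ₁`. -/
theorem exists_book {W : Type} [LinearOrder W] (hW : #W = ℵ_ 1) (hc : ∀ w : W, (Iio w).Countable)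
    (X : W → ℕ → Bool) (hX : ∀ D : ℕ → List Bool → Prop, (∀ n s, ∃ s', s <+: s' ∧ D n s') →
      ∃ w, ∀ n, ∃ s, D n s ∧ ∀ k (h : k < s.length), X w k = s[k]) : Nonempty (Book W) := by
  classical
  have h1 : #(W × W × W) = #W := by
    rw [Cardinal.mk_prod, Cardinal.mk_prod]
    simp only [Cardinal.lift_id]
    rw [hW, Cardinal.mul_eq_self (Cardinal.aleph0_le_aleph 1),
      Cardinal.mul_eq_self (Cardinal.aleph0_le_aleph 1)]
  obtain ⟨e⟩ := Cardinal.eq.1 h1.symm
  have hen : ∀ δ : W, ∃ en : ℕ → Option ({η // η < δ} × ℚ × ℚ), ∀ y N, ∃ i, N ≤ i ∧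
      en i = some y := by
    intro δ
    have : Countable {η // η < δ} := (hc δ).to_subtype
    obtain ⟨f, hf⟩ := exists_surjective_nat (Option ({η // η < δ} × ℚ × ℚ))
    refine ⟨fun i => f i.unpair.1, fun y N => ?_⟩
    obtain ⟨j, hj⟩ := hf (some y)
    exact ⟨Nat.pair j N, Nat.right_le_pair j N, by simp [hj]⟩
  choose en hen using hen
  refine ⟨⟨X, fun ξ => min (e ξ).1 ξ, fun ξ => min_le_right _ _, fun ξ => (e ξ).2.1, ?_, en, hen,
    hX⟩⟩
  intro a b
  by_contra hcon
  push Not at hcon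
  have h2 : ∀ w : W, e.symm (a, b, w) < a := by
    intro w
    by_contra h
    refine hcon (e.symm (a, b, w)) ?_ ?_
    · rw [Equiv.apply_symm_apply]
      exact min_eq_left (not_lt.1 h)
    · rw [Equiv.apply_symm_apply]
  have h3 : #W ≤ #(Iio a) := Cardinal.mk_le_of_injective
    (f := fun w => (⟨e.symm (a, b, w), h2 w⟩ : Iio a)) (by
      intro w w' hww
      have := e.symm.injective (Subtype.ext_iff.1 hww)
      simpa using this)
  have h4 : #(Iio a) ≤ ℵ₀ := Cardinal.mk_le_aleph0_iff.2 (hc a).to_subtype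
  exact absurd (hW ▸ h3.trans h4) (not_le.2 Cardinal.aleph0_lt_aleph_one)

/-- If there is a nonmeager set of size `ℵ₁`, then `𝔫𝔬 ≤ ℵ₁`. -/
theorem noNumber_le_aleph_one {W : Type} [LinearOrder W] [WellFoundedLT W] (hW : #W = ℵ_ 1)
    (hc : ∀ w : W, (Iio w).Countable)
    (X : W → ℕ → Bool) (hX : ∀ D : ℕ → List Bool → Prop, (∀ n s, ∃ s', s <+: s' ∧ D n s') →
      ∃ w, ∀ n, ∃ s, D n s ∧ ∀ k (h : k < s.length), X w k = s[k]) :
    ∃ (T : Type) (r : T → T → Prop), IsAronszajn #T r ∧ #T ≤ ℵ_ 1 ∧ ¬ SpecNoReals r := by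
  obtain ⟨B⟩ := exists_book hW hc X hX
  have hne : Nonempty W := Cardinal.mk_ne_zero_iff.1 (by
    rw [hW]; exact (Cardinal.aleph_pos 1).ne')
  have hb : ∀ f : ℕ → W, ∃ b, ∀ n, f n < b := by
    intro f
    by_contra hcon
    push Not at hcon
    have h1 : (univ : Set W) ⊆ ⋃ n, Iic (f n) := fun b _ => by
      obtain ⟨n, hn⟩ := hcon b
      exact mem_iUnion.2 ⟨n, hn⟩
    have h2 : (⋃ n, Iic (f n)).Countable := countable_iUnion fun n => by
      have h3 : Iic (f n) = insert (f n) (Iio (f n)) := (Iio_insert).symm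
      rw [h3]
      exact (hc (f n)).insert _
    have h3 : Countable W := countable_univ_iff.1 (h2.mono h1)
    have h4 : #W ≤ ℵ₀ := Cardinal.mk_le_aleph0_iff.2 h3
    rw [hW] at h4
    exact absurd h4 (not_le.2 Cardinal.aleph0_lt_aleph_one)
  obtain ⟨c⟩ : Nonempty (W ↪ (ℕ → Prop)) := by
    rw [← Cardinal.le_def, hW]
    calc ℵ_ 1 ≤ 𝔠 := Cardinal.aleph_one_le_continuum
      _ = #(ℕ → Prop) := by simp
  have hs := not_spec B hc hb c c.injective
  have h0 : ¬ Special (rr B) := fun h => hs (special_spec h)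
  refine ⟨TT B, rr B, isAronszajn B h0, ?_, hs⟩
  rw [← hW]
  exact Cardinal.mk_le_of_surjective (f := nd B) (by
    rintro ⟨s, ξ, hξ⟩
    exact ⟨ξ, Subtype.ext hξ⟩)

/-- If there is a nonmeager set of size `ℵ₁`, then `𝔫𝔬 = ℵ₁`. -/
theorem noNumber_eq {W : Type} [LinearOrder W] [WellFoundedLT W] (hW : #W = ℵ_ 1)
    (hc : ∀ w : W, (Iio w).Countable)
    (X : W → ℕ → Bool) (hX : ∀ D : ℕ → List Bool → Prop, (∀ n s, ∃ s', s <+: s' ∧ D n s') →
      ∃ w, ∀ n, ∃ s, D n s ∧ ∀ k (h : k < s.length), X w k = s[k]) :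
    noNumber = ℵ_ 1 := by
  obtain ⟨T, r, h1, h2, h3⟩ := noNumber_le_aleph_one hW hc X hX
  have h4 : #T = ℵ_ 1 := le_antisymm h2 (aleph_one_le h1 rfl)
  have h5 : (ℵ_ 1) ∈ {l : Cardinal.{0} | ℵ₀ ≤ l ∧ ∃ (T : Type) (r : T → T → Prop),
      IsAronszajn l r ∧ #T = l ∧ ¬ SpecNoReals r} :=
    ⟨Cardinal.aleph0_le_aleph 1, T, r, h4 ▸ h1, h4, h3⟩
  refine le_antisymm (csInf_le' h5) (le_csInf ⟨_, h5⟩ ?_)
  rintro l ⟨-, T', r', h6, h7, -⟩
  exact aleph_one_le h6 h7

end Pool.Agent.R582.NR
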