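import Mathlib
import Pool.Agent.R582.NR.Aron
import Pool.Agent.R582.Coh.Forced

set_option autoImplicit false

/-!
# The hypothesis holds after adding Cohen reals
-/

namespace Pool.Agent.R582.NR

open Cardinal Set Ordinal
open Pool.Agent.Helper292.SP (fnot fand fall fimp fiff fex fground meets IsFun mem_fex mem_fimp
  not_fex down_meets meets_cst meets_of_mem)
open Pool.Agent.H631R2 (CCC NoOnto meets_of_dense mem_fiff Cond)
open Pool.Agent.R582.Coh (Ini IniN mem_fex_self isFun_cst cn cn_distinct cn_generic)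

/-- The hypothesis on a set `W` with a linear order and a set `K`: `W` is well-ordered, its proper
initial segments are countable, there is no function from `W` onto the nonempty set `K`, there are `|K|` different
subsets of `ℕ`, and there is a family, indexed by `W`, of subsets of `ℕ` which is not meager (it
meets every intersection of countably many open dense sets; the `n`-th open dense set is given by
a set `D n` of finite sequences such that every finite sequence has an extension in `D n`). -/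
def Hyp (W K : Type) [LinearOrder W] : Prop :=
  (∀ N : W → Prop, (∃ w, N w) → ∃ w, N w ∧ ∀ v, N v → w ≤ v) ∧
  (∀ w : W, ∃ e : W → ℕ, ∀ v v', v < w ∧ v' < w → e v = e v' → v = v') ∧
  (¬ ∃ f : W → K, Function.Surjective f) ∧ (∃ _ : K, True) ∧
  (∃ c : K → ℕ → Prop, ∀ i j, i ≠ j → ¬ ∀ n, (c i n ↔ c j n)) ∧
  (∃ x : W → ℕ → Prop, ∀ D : ℕ → List Bool → Prop, (∀ n s, ∃ s', s <+: s' ∧ D n s') →
    ∃ w, ∀ n, ∃ s, D n s ∧ Ini s (x w))

/-- The sentence `Hyp W K` of the forcing language. -/
def HypN (P : Type) [Preorder P] (W K : Type) [LinearOrder W] : Set P :=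
  fand (fall fun N : W → Set P => fimp (fex fun w : W => meets (N w))
    (fex fun w : W => fand (meets (N w)) (fall fun v : W => fimp (meets (N v)) (fground (w ≤ v))))) <|
  fand (fall fun w : W => fex fun e : W → ℕ → Set P => fand (IsFun e)
    (fall fun v : W => fall fun v' : W => fall fun n : ℕ => fimp (fground (v < w ∧ v' < w))
      (fimp (fand (meets (e v n)) (meets (e v' n))) (fground (v = v'))))) <|
  fand (NoOnto P W K) <| fand (fex fun _ : K => fground True) <|
  fand (fex fun c : K → ℕ → Set P => fall fun i : K => fall fun j : K => fimp (fground (i ≠ j))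
    (fnot (fall fun n : ℕ => fiff (meets (c i n)) (meets (c j n))))) <|
  fex fun x : W → ℕ → Set P => fall fun D : ℕ → List Bool → Set P => fimp
    (fall fun n : ℕ => fall fun s : List Bool => fex fun s' : List Bool =>
      fand (fground (s <+: s')) (meets (D n s')))
    (fex fun w : W => fall fun n : ℕ => fex fun s : List Bool =>
      fand (meets (D n s)) (IniN s (x w)))

/-- In ZFC the hypothesis implies `𝔫𝔬 = ℵ₁ < 𝔠`. -/
theorem noNumber_lt {W K : Type} [LinearOrder W] (h : Hyp W K) :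
    noNumber = ℵ_ 1 ∧ noNumber < 𝔠 := by
  classical
  obtain ⟨h1, h2, h3, ⟨k0, -⟩, ⟨c, hc⟩, x, hx⟩ := h
  have hKne : Nonempty K := ⟨k0⟩
  have hwf : WellFoundedLT W := ⟨by
    rw [WellFounded.wellFounded_iff_has_min]
    intro s hs
    obtain ⟨w, hw, hw'⟩ := h1 (fun w => w ∈ s) hs
    exact ⟨w, hw, fun v hv hlt => absurd (hw' v hv) (not_le.2 hlt)⟩⟩
  have hct : ∀ w : W, (Iio w).Countable := by
    intro w
    obtain ⟨e, he⟩ := h2 w
    exact (Set.countable_iff_exists_injOn.2 ⟨e, fun v hv v' hv' hvv => he v v' ⟨hv, hv'⟩ hvv⟩)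
  -- `W` is not countable
  have hunc : ¬ Countable W := by
    intro hcW
    have hne : Nonempty W := by
      obtain ⟨w, -⟩ := hx (fun _ _ => True) fun _ s => ⟨s, List.prefix_rfl, trivial⟩
      exact ⟨w⟩
    obtain ⟨e, he⟩ := exists_surjective_nat W
    obtain ⟨w, hw⟩ := hx (fun n s => ∃ (k : ℕ) (hk : k < s.length), ¬ (x (e n) k ↔ s[k] = true)) (by
      intro n s
      refine ⟨s ++ [!decide (x (e n) s.length)], List.prefix_append _ _, s.length, by simp, ?_⟩
      by_cases hh : x (e n) s.length <;> simp [hh])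
    obtain ⟨n, hn⟩ := he w
    obtain ⟨s, ⟨k, hk, hk'⟩, hs⟩ := hw n
    rw [hn] at hk'
    exact hk' (hs k hk)
  have hW1 : #W ≤ ℵ_ 1 := by
    by_contra hcon
    have h4 : (ℵ_ 1).ord < Ordinal.type (α := W) (· < ·) := by
      refine lt_of_le_of_ne (Cardinal.ord_le.2 (by rw [Ordinal.card_type]; exact (not_le.1 hcon).le))
        fun heq => hcon ?_
      rw [← Ordinal.card_type (α := W) (· < ·), ← heq, Cardinal.card_ord]
    obtain ⟨w, hw⟩ := Ordinal.typein_surj (α := W) (· < ·) h4
    have h5 : #(Iio w) = ℵ_ 1 := by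
      rw [← Cardinal.card_ord (ℵ_ 1), ← hw, ← Ordinal.type_subrel, Ordinal.card_type]
      rfl
    have h6 : #(Iio w) ≤ ℵ₀ := Cardinal.mk_le_aleph0_iff.2 (hct w).to_subtype
    rw [h5] at h6
    exact absurd h6 (not_le.2 Cardinal.aleph0_lt_aleph_one)
  have hW : #W = ℵ_ 1 := by
    refine le_antisymm hW1 ?_
    rw [← Cardinal.succ_aleph0, Order.succ_le_iff]
    by_contra hcon
    exact hunc (Cardinal.mk_le_aleph0_iff.1 (not_lt.1 hcon))
  have hno := noNumber_eq hW hct (fun w n => decide (x w n)) (by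
    intro D hD
    obtain ⟨w, hw⟩ := hx D hD
    refine ⟨w, fun n => ?_⟩
    obtain ⟨s, hs, hs'⟩ := hw n
    refine ⟨s, hs, fun k hk => ?_⟩
    have := hs' k hk
    by_cases hb : s[k] = true
    · rw [hb]; exact decide_eq_true (this.2 hb)
    · have hb' : s[k] = false := by simpa using hb
      rw [hb']
      exact decide_eq_false fun hcon => hb (this.1 hcon))
  refine ⟨hno, ?_⟩
  rw [hno, ← hW]
  have hWn : Nonempty W := by
    by_contra hcon
    rw [not_nonempty_iff] at hcon
    exact hunc inferInstance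
  have hK : #W < #K := by
    by_contra hcon
    obtain ⟨e⟩ := (Cardinal.le_def _ _).1 (not_lt.1 hcon)
    exact h3 ⟨Function.invFun e, Function.invFun_surjective e.injective⟩
  refine hK.trans_le ?_
  have h5 : #K ≤ #(ℕ → Prop) := Cardinal.mk_le_of_injective (f := c) (by
    intro i j hij
    by_contra hne
    exact hc i j hne fun n => by rw [hij])
  simpa using h5

/-- Adding Cohen reals forces the hypothesis. -/
theorem forced (K : Type) (hK : ℵ_ 1 < #K) (p : Cond (K × ℕ)) :
    p ∈ HypN (Cond (K × ℕ)) (Ordinal.omega.{0} 1).ToType K := by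
  classical
  have hWc : #(Ordinal.omega.{0} 1).ToType = ℵ_ 1 := by rw [Cardinal.mk_toType, Ordinal.card_omega]
  have hKne : Nonempty K := Cardinal.mk_ne_zero_iff.1 fun h => by
    rw [h] at hK
    exact absurd hK (not_lt.2 zero_le)
  obtain ⟨ι⟩ : Nonempty ((Ordinal.omega.{0} 1).ToType ↪ K) := by
    rw [← Cardinal.le_def, hWc]
    exact hK.le
  refine ⟨?_, ?_, ?_, ?_, ?_, ?_⟩
  · intro N
    refine mem_fimp.2 fun q _ hq => ?_
    obtain ⟨r0, hr0, w0, hw0⟩ := mem_fex.1 hq q le_rfl
    have hne : {w | ∃ r ≤ q, r ∈ meets (N w)}.Nonempty := ⟨w0, r0, hr0, hw0⟩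
    obtain ⟨r, hr, hr'⟩ := wellFounded_lt.min_mem _ hne
    refine ⟨r, hr, mem_fex_self (wellFounded_lt.min _ hne) fun q' hq' => ⟨down_meets hr' hq', ?_⟩⟩
    intro v
    refine mem_fimp.2 fun q'' hq'' hv => ⟨q'', le_rfl, ?_⟩
    exact not_lt.1 (wellFounded_lt.not_lt_min _
      (show v ∈ {w | ∃ r ≤ q, r ∈ meets (N w)} from ⟨q'', hq''.trans (hq'.trans hr), hv⟩))
  · intro w
    have h1 : (Iio w).Countable := by
      rw [← Cardinal.le_aleph0_iff_set_countable, ← Cardinal.lt_aleph_one_iff]
      have h2 := Ordinal.typein_lt_self w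
      have h3 : (Ordinal.typein (α := (Ordinal.omega.{0} 1).ToType) (· < ·) w).card = #(Iio w) := by
        rw [← Ordinal.type_subrel, Ordinal.card_type]
        rfl
      rw [← h3]
      exact Cardinal.lt_ord.1 (by rwa [Cardinal.ord_aleph])
    obtain ⟨e, he⟩ := Set.countable_iff_exists_injOn.1 h1
    refine mem_fex_self (fun v n => {_p | e v = n}) fun q _ => ⟨isFun_cst e q, ?_⟩
    intro v v' n
    refine mem_fimp.2 fun q' _ hq' => ⟨q', le_rfl, mem_fimp.2 fun q'' _ hq'' => ⟨q'', le_rfl, ?_⟩⟩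
    obtain ⟨h2, h3⟩ := hq''
    rw [meets_cst] at h2 h3
    exact he hq'.1 hq'.2 (h2.trans h3.symm)
  · exact CCC.noOnto Cond.ccc (hWc ▸ Cardinal.aleph0_le_aleph 1) (hWc ▸ hK) p
  · exact mem_fex_self hKne.some fun q _ => trivial
  · refine mem_fex_self cn fun q _ => fun i j => mem_fimp.2 fun q' _ hq' => ⟨q', le_rfl, ?_⟩
    exact cn_distinct hq' q'
  · refine mem_fex_self (fun w => cn (ι w)) fun q _ => fun D => mem_fimp.2 fun q' _ hq' =>
      ⟨q', le_rfl, ?_⟩
    obtain ⟨a, ha⟩ := cn_generic (fun n s _ => D n s) q' (by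
      intro n s t
      refine mem_fex.2 fun u hu => ?_
      obtain ⟨v, hv, s', hs', hs''⟩ := mem_fex.1 (hq' n s) u hu
      refine ⟨v, hv, s', mem_fex_self t fun v' hv' => ⟨⟨hs', List.prefix_rfl⟩, down_meets hs'' hv'⟩⟩)
    have h1 : ∃ w, ∀ n, a n ≠ ι w := by
      by_contra hcon
      push Not at hcon
      choose f hf using hcon
      have h2 := Cardinal.mk_le_of_injective (f := f) (fun w w' hww => ι.injective (by
        rw [← hf w, ← hf w', hww]))
      rw [hWc, Cardinal.mk_nat] at h2
      exact absurd h2 (not_le.2 Cardinal.aleph0_lt_aleph_one)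
    obtain ⟨w, hw⟩ := h1
    have h2 : ∃ j, ι w ≠ j ∧ ∀ n, a n ≠ j := by
      by_contra hcon
      push Not at hcon
      have h3 : (univ : Set K) ⊆ insert (ι w) (Set.range a) := fun j _ => by
        by_cases hj : ι w = j
        · exact Or.inl hj.symm
        · obtain ⟨n, hn⟩ := hcon j hj
          exact Or.inr ⟨n, hn⟩
      have h4 : Countable K := countable_univ_iff.1 (((countable_range a).insert _).mono h3)
      exact absurd hK (not_lt.2 ((Cardinal.mk_le_aleph0_iff.2 h4).trans
        (Cardinal.aleph0_le_aleph 1)))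
    obtain ⟨j, hj, hj'⟩ := h2
    refine mem_fex_self w fun u hu => fun n => mem_fex.2 fun v hv => ?_
    obtain ⟨z, hz, s, t, h5, h6, -⟩ := ha (ι w) j hj hw hj' n v (hv.trans hu)
    exact ⟨z, hz, s, h5, h6⟩

end Pool.Agent.R582.NR
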