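import Mathlib
import Pool.Agent.R582.NR.Aron

set_option autoImplicit false

/-!
# `non(M) = ℵ₁` implies `𝔫𝔬 = ℵ₁`
-/

namespace Pool.Agent.R582.NR

open Cardinal Set Ordinal

theorem countable_Iio_omega (w : (Ordinal.omega.{0} 1).ToType) : (Iio w).Countable := by
  rw [← Cardinal.le_aleph0_iff_set_countable, ← Cardinal.lt_aleph_one_iff]
  have h2 := Ordinal.typein_lt_self w
  have h3 : (Ordinal.typein (α := (Ordinal.omega.{0} 1).ToType) (· < ·) w).card = #(Iio w) := by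
    rw [← Ordinal.type_subrel, Ordinal.card_type]
    rfl
  rw [← h3]
  exact Cardinal.lt_ord.1 (by rwa [Cardinal.ord_aleph])

/-- the open set given by a set of finite sequences -/
def cyl (D : List Bool → Prop) : Set (ℕ → Bool) :=
  {x | ∃ s, D s ∧ ∀ k (h : k < s.length), x k = s[k]}

theorem isOpen_cyl (D : List Bool → Prop) : IsOpen (cyl D) := by
  have h : cyl D = ⋃ s : {s // D s}, ⋂ k : Fin s.1.length, {x : ℕ → Bool | x k = s.1[k]} := by
    ext x
    simp only [cyl, mem_ofPred_eq, mem_iUnion, mem_iInter, Subtype.exists]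
    constructor
    · rintro ⟨s, hs, h⟩
      exact ⟨s, hs, fun k => h k k.2⟩
    · rintro ⟨s, hs, h⟩
      exact ⟨s, hs, fun k hk => h ⟨k, hk⟩⟩
  rw [h]
  refine isOpen_iUnion fun s => isOpen_iInter_of_finite fun k => ?_
  have h1 : IsOpen ((fun x : ℕ → Bool => x k) ⁻¹' {s.1[k]}) :=
    (isOpen_discrete ({s.1[k]} : Set Bool)).preimage (continuous_apply (k : ℕ))
  exact h1

theorem dense_cyl {D : List Bool → Prop} (hD : ∀ s, ∃ s', s <+: s' ∧ D s') : Dense (cyl D) := by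
  rw [dense_iff_inter_open]
  rintro V hV ⟨x, hx⟩
  obtain ⟨I, u, hu, hIV⟩ := isOpen_pi_iff.1 hV x hx
  obtain ⟨N, hN⟩ : ∃ N, ∀ i ∈ I, i < N := ⟨I.sup id + 1, fun i hi =>
    Nat.lt_succ_of_le (Finset.le_sup (f := id) hi)⟩
  obtain ⟨s', hs', hD'⟩ := hD (List.ofFn fun i : Fin N => x i)
  refine ⟨fun k => s'.getD k false, hIV fun i hi => ?_, s', hD', fun k hk => ?_⟩
  · have h1 : i < (List.ofFn fun i : Fin N => x i).length := by simpa using hN i hi
    have h2 : i < s'.length := h1.trans_le hs'.length_le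
    have h3 : s'.getD i false = x i := by
      rw [List.getD_eq_getElem _ _ h2, ← hs'.getElem h1]
      simp
    show s'.getD i false ∈ u i
    rw [h3]
    exact (hu i hi).2
  · show s'.getD k false = s'[k]
    rw [List.getD_eq_getElem _ _ hk]

/-- If there is a nonmeager set of size `ℵ₁`, then `𝔫𝔬 = ℵ₁`. -/
theorem noNumber_of_nonmeager {X : Set (ℕ → Bool)} (hX : ¬ IsMeagre X) (hc : #X = ℵ_ 1) :
    noNumber = ℵ_ 1 := by
  have hW : #(Ordinal.omega.{0} 1).ToType = ℵ_ 1 := by rw [Cardinal.mk_toType, Ordinal.card_omega]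
  obtain ⟨e⟩ := Cardinal.eq.1 (hW.trans hc.symm)
  refine noNumber_eq hW countable_Iio_omega (fun w => (e w : ℕ → Bool)) fun D hD => ?_
  by_contra hcon
  push Not at hcon
  apply hX
  have h1 : (⋂ n, cyl (D n)) ∈ residual (ℕ → Bool) :=
    countable_iInter_mem.2 fun n => residual_of_dense_open (isOpen_cyl _) (dense_cyl (hD n))
  refine IsMeagre.mono (s := (⋂ n, cyl (D n))ᶜ) ?_ ?_
  · intro x hx hmem
    obtain ⟨n, hn⟩ := hcon (e.symm ⟨x, hx⟩)
    obtain ⟨s, hs, hs'⟩ := mem_iInter.1 hmem n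
    obtain ⟨k, hk, hk'⟩ := hn s hs
    refine hk' ?_
    simpa using hs' k hk
  · show (⋂ n, cyl (D n))ᶜᶜ ∈ residual (ℕ → Bool)
    rwa [compl_compl]

end Pool.Agent.R582.NR
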