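import Mathlib
import Pool.Agent.R582.NR.Aron
import Pool.Agent.R582.NR.Top

set_option autoImplicit false

/-!
# A special wide tree which does not embed into trees with countable levels
-/

namespace Pool.Agent.R582.Wide

open Cardinal Set Ordinal
open Pool.Agent.R582.NR

/-- A tree of height `ω₁` is normal: it has one root, every node is comparable with some node of
every level, and distinct nodes of a limit level have distinct projections to some level below. -/
structure IsNormal {T : Type} (r : T → T → Prop) : Prop where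
  root : ∃! t, t ∈ Lev r 0
  ext : ∀ t, ∀ α < Ordinal.omega.{0} 1, ∃ s ∈ Lev r α, s = t ∨ r s t ∨ r t s
  hausdorff : ∀ α < Ordinal.omega.{0} 1, Order.IsSuccLimit α → ∀ t ∈ Lev r α, ∀ u ∈ Lev r α,
    t ≠ u → ∃ β < α, ∃ s ∈ Lev r β, ∃ s' ∈ Lev r β, r s t ∧ r s' u ∧ s ≠ s'

/-- A tree of height `ω₁` with countable levels. -/
structure IsOmegaOneTree {T : Type} (r : T → T → Prop) : Prop where
  tree : IsTree r
  height : ∀ α < Ordinal.omega.{0} 1, (Lev r α).Nonempty
  height' : Lev r (Ordinal.omega 1) = ∅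
  levels : ∀ α, (Lev r α).Countable

/-- the set `ω₁` -/
abbrev W : Type := (Ordinal.omega.{0} 1).ToType

theorem mk_W : #W = ℵ_ 1 := by rw [Cardinal.mk_toType, Ordinal.card_omega]

theorem not_countable_W : ¬ Countable W := fun h => by
  have h1 : #W ≤ ℵ₀ := Cardinal.mk_le_aleph0_iff.2 h
  rw [mk_W] at h1
  exact absurd h1 (not_le.2 Cardinal.aleph0_lt_aleph_one)

/-- the order type of the set of the predecessors -/
noncomputable def ty (p : W) : Ordinal.{0} := Ordinal.typein (α := W) (· < ·) p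

theorem ty_lt {p q : W} : ty p < ty q ↔ p < q := Ordinal.typein_lt_typein _

theorem ty_inj {p q : W} (h : ty p = ty q) : p = q := Ordinal.typein_injective _ h

theorem ty_lt_omega (p : W) : ty p < Ordinal.omega 1 := Ordinal.typein_lt_self p

theorem exists_ty {α : Ordinal.{0}} (h : α < Ordinal.omega 1) : ∃ p, ty p = α :=
  Ordinal.typein_surj _ (by rwa [Ordinal.type_toType])

theorem exists_gt_all (f : ℕ → W) : ∃ b, ∀ n, f n < b := by
  by_contra hcon
  push Not at hcon
  have h1 : (univ : Set W) ⊆ ⋃ n, Iic (f n) := fun b _ => by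
    obtain ⟨n, hn⟩ := hcon b
    exact mem_iUnion.2 ⟨n, hn⟩
  have h2 : (⋃ n, Iic (f n)).Countable := countable_iUnion fun n => by
    have h3 : Iic (f n) = insert (f n) (Iio (f n)) := (Iio_insert).symm
    rw [h3]
    exact (countable_Iio_omega (f n)).insert _
  exact not_countable_W (countable_univ_iff.1 (h2.mono h1))

theorem omega0_lt_omega_one : (Ordinal.omega0 : Ordinal.{0}) < Ordinal.omega 1 := by
  rw [← Cardinal.ord_aleph0, ← Cardinal.ord_aleph]
  exact Cardinal.ord_lt_ord.2 Cardinal.aleph0_lt_aleph_one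

/-- the element `ω` of `ω₁` -/
noncomputable def o : W := (exists_ty omega0_lt_omega_one).choose

theorem ty_o : ty o = Ordinal.omega0 := (exists_ty omega0_lt_omega_one).choose_spec

theorem finite_Iio {p : W} (h : p < o) : (Iio p).Finite := by
  have h1 : (ty p).card = #(Iio p) := by
    unfold ty
    rw [← Ordinal.type_subrel, Ordinal.card_type]
    rfl
  have h2 : ty p < Ordinal.omega0 := by rw [← ty_o]; exact ty_lt.2 h
  have h3 : #(Iio p) < ℵ₀ := by
    rw [← h1]
    obtain ⟨n, hn⟩ := Ordinal.lt_omega0.1 h2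
    rw [hn, Ordinal.card_nat]
    exact Cardinal.natCast_lt_aleph0
  exact Cardinal.lt_aleph0_iff_set_finite.1 h3

theorem exists_between_of_limit {α : Ordinal.{0}} (hα : Order.IsSuccLimit α) {p ν : W}
    (hp : ty p = α) (hν : ν < p) : ∃ γ, ν < γ ∧ γ < p := by
  have h1 : ty ν < α := by rw [← hp]; exact ty_lt.2 hν
  have h2 : Order.succ (ty ν) < α := hα.succ_lt h1
  obtain ⟨γ, hγ⟩ := exists_ty (h2.trans (by rw [← hp]; exact ty_lt_omega p))
  exact ⟨γ, ty_lt.1 (by rw [hγ]; exact Order.lt_succ _), ty_lt.1 (by rw [hγ, hp]; exact h2)⟩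

theorem infinite_Iio_o : (Iio o).Infinite := by
  intro hfin
  have h1 : (ty o).card = #(Iio o) := by
    unfold ty
    rw [← Ordinal.type_subrel, Ordinal.card_type]
    rfl
  rw [ty_o, Ordinal.card_omega0] at h1
  exact absurd (Cardinal.lt_aleph0_iff_set_finite.2 hfin) (by rw [← h1]; exact lt_irrefl _)

/-- different subsets of `ω` -/
theorem exists_codes : ∃ c : W → Set W, (∀ ξ, c ξ ⊆ Iio o) ∧ Function.Injective c := by
  have h1 : #W ≤ #(Set (Iio o)) := by
    rw [mk_W, Cardinal.mk_set]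
    have h2 : #(Iio o) = ℵ₀ := le_antisymm
      (Cardinal.mk_le_aleph0_iff.2 (countable_Iio_omega o).to_subtype)
      (Cardinal.aleph0_le_mk_iff.2 infinite_Iio_o.to_subtype)
    rw [h2, Cardinal.two_power_aleph0]
    exact Cardinal.aleph_one_le_continuum
  obtain ⟨c⟩ := (Cardinal.le_def _ _).1 h1
  refine ⟨fun ξ => Subtype.val '' c ξ, fun ξ => ?_, fun ξ ξ' h => c.injective ?_⟩
  · rintro _ ⟨x, -, rfl⟩
    exact x.2
  · exact Subtype.val_injective.image_injective h

open Classical in
/-- the `ξ`-th infinite branch -/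
noncomputable def y (ξ ν : W) : Option W := if ν ∈ exists_codes.choose ξ then some o else none

theorem y_bin (ξ ν : W) : y ξ ν = none ∨ y ξ ν = some o := by
  unfold y
  split_ifs
  · exact Or.inr rfl
  · exact Or.inl rfl

theorem y_none {ξ ν : W} (h : ¬ ν < o) : y ξ ν = none := by
  unfold y
  rw [if_neg fun h1 => h (exists_codes.choose_spec.1 ξ h1)]

theorem y_inj {ξ ξ' : W} (h : ξ ≠ ξ') : ∃ ν < o, y ξ ν ≠ y ξ' ν := by
  by_contra hcon
  push Not at hcon
  apply h
  apply exists_codes.choose_spec.2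
  ext ν
  by_cases hν : ν < o
  · have := hcon ν hν
    unfold y at this
    by_cases h1 : ν ∈ exists_codes.choose ξ <;> by_cases h2 : ν ∈ exists_codes.choose ξ' <;>
      simp_all
  · exact ⟨fun h1 => absurd (exists_codes.choose_spec.1 _ h1) hν,
      fun h1 => absurd (exists_codes.choose_spec.1 _ h1) hν⟩

open Classical in
/-- the function of which a node is a finite modification -/
noncomputable def base (p ξ ν : W) : Option W := if o ≤ p ∧ ν < o then y ξ ν else none

/-- The nodes. -/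
structure Node : Type where
  p : W
  f : W → Option W
  supp : ∀ ν, p ≤ ν → f ν = none
  bin : ∀ ν < o, f ν = none ∨ f ν = some o
  fin : ∃ ξ, {ν | f ν ≠ base p ξ ν}.Finite
  run : ∀ γ, o < γ → γ ≤ p → ∃ μ, o ≤ μ ∧ μ < γ ∧ ∃ b, f μ = some b ∧ γ ≤ b ∧
    ∀ ν, μ < ν → ν < γ → f ν = none

theorem Node.ext' {s t : Node} (h1 : s.p = t.p) (h2 : ∀ ν < s.p, s.f ν = t.f ν) : s = t := by
  have h3 : s.f = t.f := by
    funext ν
    by_cases h : ν < s.p
    · exact h2 ν h
    · rw [s.supp ν (not_lt.1 h), t.supp ν (h1 ▸ not_lt.1 h)]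
  cases s
  cases t
  simp only at h1 h3
  subst h1
  subst h3
  rfl

/-- the order of the tree -/
def rel (s t : Node) : Prop := s.p < t.p ∧ ∀ ν < s.p, s.f ν = t.f ν

open Classical in
/-- the restriction of a node -/
noncomputable def Node.rst (t : Node) (γ : W) (hγ : γ ≤ t.p) : Node where
  p := γ
  f := fun ν => if ν < γ then t.f ν else none
  supp := fun ν hν => if_neg (not_lt.2 hν)
  bin := fun ν hν => by
    split_ifs
    · exact t.bin ν hν
    · exact Or.inl rfl
  fin := by
    obtain ⟨ξ, hξ⟩ := t.fin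
    refine ⟨ξ, ?_⟩
    by_cases hg : o ≤ γ
    · refine hξ.subset fun ν hν hcon => hν ?_
      by_cases h1 : ν < γ
      · rw [if_pos h1]
        rw [hcon]
        unfold base
        simp only [hg, hg.trans hγ, true_and]
      · rw [if_neg h1]
        unfold base
        rw [if_neg fun h2 => h1 (h2.2.trans_le hg)]
    · refine (finite_Iio (not_le.1 hg)).subset fun ν hν => ?_
      by_contra h1
      apply hν
      rw [if_neg (show ¬ ν < γ from h1)]
      unfold base
      rw [if_neg fun h2 => hg h2.1]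
  run := fun γ' h1 h2 => by
    obtain ⟨μ, h3, h4, b, h5, h6, h7⟩ := t.run γ' h1 (h2.trans hγ)
    refine ⟨μ, h3, h4, b, ?_, h6, fun ν hν hν' => ?_⟩
    · rw [if_pos (h4.trans_le h2)]
      exact h5
    · rw [if_pos (hν'.trans_le h2)]
      exact h7 ν hν hν'

theorem rst_f {t : Node} {γ : W} (hγ : γ ≤ t.p) {ν : W} (hν : ν < γ) :
    (t.rst γ hγ).f ν = t.f ν := if_pos hν

theorem rel_rst {t : Node} {γ : W} (hγ : γ < t.p) : rel (t.rst γ hγ.le) t :=
  ⟨hγ, fun _ hν => rst_f hγ.le hν⟩

theorem eq_rst {s t : Node} (h : rel s t) : s = t.rst s.p h.1.le :=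
  Node.ext' rfl fun ν hν => (h.2 ν hν).trans (rst_f h.1.le hν).symm

theorem rel_trans {s t u : Node} (h : rel s t) (h' : rel t u) : rel s u :=
  ⟨h.1.trans h'.1, fun ν hν => (h.2 ν hν).trans (h'.2 ν (hν.trans h.1))⟩

theorem rel_of {s s' t : Node} (h : rel s t) (h' : rel s' t) (hp : s.p < s'.p) : rel s s' :=
  ⟨hp, fun ν hν => (h.2 ν hν).trans (h'.2 ν (hν.trans hp)).symm⟩

/-- the predecessors of a node -/
noncomputable def preds (t : Node) :
    (fun a b : Iio t.p => a < b) ≃r (fun a b : {s // rel s t} => rel a.1 b.1) where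
  toFun := fun γ => ⟨t.rst γ.1 (le_of_lt γ.2), rel_rst γ.2⟩
  invFun := fun s => ⟨s.1.p, s.2.1⟩
  left_inv := fun γ => rfl
  right_inv := fun s => Subtype.ext (eq_rst s.2).symm
  map_rel_iff' := by
    intro a b
    constructor
    · exact fun h => h.1
    · intro h
      exact rel_of (rel_rst a.2) (rel_rst b.2) h

theorem isTree : IsTree rel where
  irrefl := fun _ h => lt_irrefl _ h.1
  trans := fun _ _ _ => rel_trans
  wo := fun t => (preds t).symm.toRelEmbedding.isWellOrder

theorem mem_lev_iff {t : Node} {α : Ordinal.{0}} : t ∈ Lev rel α ↔ ty t.p = α := by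
  have h1 : ht isTree t = ty t.p := by
    have := isTree.wo t
    unfold ht ty
    rw [← Ordinal.type_subrel]
    exact (Ordinal.type_eq.2 ⟨preds t⟩).symm
  constructor
  · intro h
    rw [← h1, ht_eq isTree h]
  · intro h
    rw [← h, ← h1]
    exact mem_Lev isTree t

open Classical in
/-- the node of height `ω` above `t` -/
theorem exists_ext_o {t : Node} (ht : t.p < o) : ∃ u : Node, u.p = o ∧ rel t u := by
  refine ⟨⟨o, fun ν => if ν < t.p then t.f ν else y o ν, ?_, ?_, ⟨o, ?_⟩, ?_⟩, rfl, ht,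
    fun ν hν => (if_pos hν).symm⟩
  · intro ν hν
    rw [if_neg (not_lt.2 (ht.le.trans hν)), y_none (not_lt.2 hν)]
  · intro ν hν
    split_ifs
    · exact t.bin ν hν
    · exact y_bin o ν
  · refine (finite_Iio ht).subset fun ν hν => ?_
    by_contra h1
    apply hν
    rw [if_neg (show ¬ ν < t.p from h1)]
    unfold base
    by_cases h2 : ν < o
    · rw [if_pos ⟨le_rfl, h2⟩]
    · rw [if_neg fun h => h2 h.2, y_none h2]
  · intro γ h1 h2
    exact absurd h1 (not_lt.2 h2)

open Classical in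
theorem exists_ext_big {t : Node} (ht : o ≤ t.p) {δ : W} (hδ : t.p < δ) :
    ∃ u : Node, u.p = δ ∧ rel t u := by
  refine ⟨⟨δ, fun ν => if ν = t.p then some δ else t.f ν, ?_, ?_, ?_, ?_⟩, rfl, hδ,
    fun ν hν => (if_neg (ne_of_lt hν)).symm⟩
  · intro ν hν
    rw [if_neg (ne_of_gt (hδ.trans_le hν)), t.supp ν (hδ.le.trans hν)]
  · intro ν hν
    rw [if_neg (ne_of_lt (hν.trans_le ht))]
    exact t.bin ν hν
  · obtain ⟨ξ, hξ⟩ := t.fin
    refine ⟨ξ, (hξ.insert t.p).subset fun ν hν => ?_⟩
    by_cases h1 : ν = t.p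
    · exact Or.inl h1
    · refine Or.inr fun hcon => hν ?_
      rw [if_neg h1, hcon]
      unfold base
      simp only [ht, ht.trans hδ.le, true_and]
  · intro γ h1 h2
    by_cases h3 : γ ≤ t.p
    · obtain ⟨μ, h4, h5, b, h6, h7, h8⟩ := t.run γ h1 h3
      refine ⟨μ, h4, h5, b, ?_, h7, fun ν hν hν' => ?_⟩
      · rw [if_neg (ne_of_lt (h5.trans_le h3))]
        exact h6
      · rw [if_neg (ne_of_lt (hν'.trans_le h3))]
        exact h8 ν hν hν'
    · rw [not_le] at h3
      refine ⟨t.p, ht, h3, δ, if_pos rfl, h2, fun ν hν _ => ?_⟩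
      rw [if_neg (ne_of_gt hν)]
      exact t.supp ν hν.le

/-- Every node has extensions of all larger heights. -/
theorem exists_ext (t : Node) {δ : W} (hδ : t.p < δ) : ∃ u : Node, u.p = δ ∧ rel t u := by
  by_cases h : o ≤ t.p
  · exact exists_ext_big h hδ
  · rw [not_le] at h
    obtain ⟨v, hv, hv'⟩ := exists_ext_o h
    rcases lt_trichotomy δ o with h1 | h1 | h1
    · rw [← hv] at h1
      refine ⟨v.rst δ h1.le, rfl, ?_⟩
      exact rel_of hv' (rel_rst h1) hδ
    · exact ⟨v, hv.trans h1.symm, hv'⟩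
    · rw [← hv] at h1
      obtain ⟨u, hu, hu'⟩ := exists_ext_big hv.ge h1
      exact ⟨u, hu, rel_trans hv' hu'⟩

/-- the least element of `ω₁` -/
theorem exists_zero : ∃ z : W, ∀ w, z ≤ w := by
  have hne : (univ : Set W).Nonempty := ⟨o, trivial⟩
  exact ⟨wellFounded_lt.min _ hne, fun w => not_lt.1 (wellFounded_lt.not_lt_min _ (mem_univ w))⟩

theorem exists_root : ∃ t : Node, ∀ w, t.p ≤ w := by
  obtain ⟨z, hz⟩ := exists_zero
  refine ⟨⟨z, fun _ => none, fun _ _ => rfl, fun _ _ => Or.inl rfl, ⟨z, ?_⟩, ?_⟩, hz⟩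
  · have : {ν : W | (none : Option W) ≠ base z z ν} = ∅ := by
      rw [Set.eq_empty_iff_forall_notMem]
      intro ν hν
      apply hν
      unfold base
      rw [if_neg]
      rintro ⟨h1, -⟩
      have h2 : Iio o = ∅ := by
        rw [Set.eq_empty_iff_forall_notMem]
        intro x hx
        exact absurd (h1.trans (hz x)) (not_le.2 hx)
      exact infinite_Iio_o (by rw [h2]; exact finite_empty)
    rw [this]
    exact finite_empty
  · intro γ h1 h2
    exact absurd (h1.trans_le h2) (not_lt.2 (hz o))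

theorem isNormal : IsNormal rel where
  root := by
    obtain ⟨t, ht⟩ := exists_root
    have h0 : ty t.p = 0 := by
      obtain ⟨z, hz⟩ := exists_ty (α := 0) (lt_of_le_of_lt bot_le omega0_lt_omega_one)
      have h2 : t.p = z := le_antisymm (ht z) (not_lt.1 fun h => by
        have h3 := ty_lt.2 h
        rw [hz] at h3
        exact absurd h3 (not_lt.2 bot_le))
      rw [h2, hz]
    refine ⟨t, mem_lev_iff.2 h0, fun u hu => ?_⟩
    have h1 : u.p = t.p := ty_inj ((mem_lev_iff.1 hu).trans h0.symm)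
    exact Node.ext' h1 fun ν hν => absurd hν (not_lt.2 (h1 ▸ ht ν))
  ext := fun t α hα => by
    obtain ⟨p, hp⟩ := exists_ty hα
    rcases lt_trichotomy p t.p with h | h | h
    · exact ⟨t.rst p h.le, mem_lev_iff.2 hp, Or.inr (Or.inl (rel_rst h))⟩
    · exact ⟨t, mem_lev_iff.2 (h ▸ hp), Or.inl rfl⟩
    · obtain ⟨u, hu, hu'⟩ := exists_ext t h
      exact ⟨u, mem_lev_iff.2 (hu ▸ hp), Or.inr (Or.inr hu')⟩
  hausdorff := fun α hα hlim t ht u hu hne => by
    rw [mem_lev_iff] at ht hu
    have hp : t.p = u.p := ty_inj (ht.trans hu.symm)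
    obtain ⟨ν, hν, hν'⟩ : ∃ ν < t.p, t.f ν ≠ u.f ν := by
      by_contra hcon
      push Not at hcon
      exact hne (Node.ext' hp hcon)
    obtain ⟨γ, h1, h2⟩ := exists_between_of_limit hlim ht hν
    refine ⟨ty γ, by rw [← ht]; exact ty_lt.2 h2, t.rst γ h2.le, mem_lev_iff.2 rfl,
      u.rst γ (hp ▸ h2.le), mem_lev_iff.2 rfl, rel_rst h2, rel_rst (hp ▸ h2), fun heq => hν' ?_⟩
    have h3 : (t.rst γ h2.le).f ν = (u.rst γ (hp ▸ h2.le)).f ν := by rw [heq]
    rwa [rst_f _ h1, rst_f _ h1] at h3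

/-- the number of nodes -/
theorem mk_node : #Node ≤ ℵ_ 1 := by
  classical
  have h1 : ∀ t : Node, ∃ (ξ : W) (F : Finset (W × Option W)), ∀ ν,
      t.f ν = (if h : ∃ v, (ν, v) ∈ F then h.choose else base t.p ξ ν) := by
    intro t
    obtain ⟨ξ, hξ⟩ := t.fin
    refine ⟨ξ, hξ.toFinset.image fun ν => (ν, t.f ν), fun ν => ?_⟩
    split_ifs with h
    · obtain ⟨x, -, hx⟩ := Finset.mem_image.1 h.choose_spec
      rw [Prod.mk.injEq] at hx
      rw [← hx.2, hx.1]
    · by_contra hcon
      exact h ⟨t.f ν, Finset.mem_image.2 ⟨ν, hξ.mem_toFinset.2 hcon, rfl⟩⟩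
  choose ξ F hF using h1
  have h2 : Function.Injective fun t : Node => (t.p, ξ t, F t) := by
    intro t u h
    simp only [Prod.mk.injEq] at h
    obtain ⟨h3, h4, h5⟩ := h
    refine Node.ext' h3 fun ν _ => ?_
    rw [hF t ν, hF u ν, h3, h4, h5]
  refine (Cardinal.mk_le_of_injective h2).trans ?_
  have h3 : #(Option W) = ℵ_ 1 := by
    rw [Cardinal.mk_option, mk_W]
    exact Cardinal.add_one_eq (Cardinal.aleph0_le_aleph 1)
  have h4 : #(W × Option W) = ℵ_ 1 := by
    rw [Cardinal.mk_prod, Cardinal.lift_id, Cardinal.lift_id, h3, mk_W,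
      Cardinal.mul_eq_self (Cardinal.aleph0_le_aleph 1)]
  have hinf : Infinite (W × Option W) := Cardinal.infinite_iff.2 (h4 ▸ Cardinal.aleph0_le_aleph 1)
  have h5 : #(Finset (W × Option W)) = ℵ_ 1 := by rw [Cardinal.mk_finset_of_infinite, h4]
  rw [Cardinal.mk_prod, Cardinal.mk_prod]
  simp only [Cardinal.lift_id]
  rw [mk_W, h5, Cardinal.mul_eq_self (Cardinal.aleph0_le_aleph 1),
    Cardinal.mul_eq_self (Cardinal.aleph0_le_aleph 1)]

/-- injections of the initial segments -/
theorem exists_inj (b : W) : ∃ e : W → ℕ, ∀ p ≤ b, ∀ q ≤ b, e p = e q → p = q := by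
  have h1 : (Iic b).Countable := by
    rw [← Iio_insert]
    exact (countable_Iio_omega b).insert _
  obtain ⟨e, he⟩ := Set.countable_iff_exists_injOn.1 h1
  exact ⟨e, fun p hp q hq h => he hp hq h⟩

/-- an injection of the elements up to `b` -/
noncomputable def ej (b : W) : W → ℕ := (exists_inj b).choose

theorem ej_inj {b p q : W} (hp : p ≤ b) (hq : q ≤ b) (h : ej b p = ej b q) : p = q :=
  (exists_inj b).choose_spec p hp q hq h

/-- the positions of the letters of a node -/
def Node.L (t : Node) : Set W := {ν | o ≤ ν ∧ t.f ν ≠ none}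

theorem Node.L_finite (t : Node) : t.L.Finite := by
  obtain ⟨ξ, hξ⟩ := t.fin
  refine hξ.subset fun ν hν hcon => hν.2 ?_
  rw [hcon]
  unfold base
  rw [if_neg fun h => absurd h.2 (not_lt.2 hν.1)]

/-- the last letter -/
noncomputable def Node.last (t : Node) (h : o < t.p) : W := (t.run t.p h le_rfl).choose_spec.2.2.choose

theorem Node.last_spec (t : Node) (h : o < t.p) : ∃ μ, o ≤ μ ∧ μ < t.p ∧
    t.f μ = some (t.last h) ∧ t.p ≤ t.last h ∧ ∀ ν, μ < ν → ν < t.p → t.f ν = none := by
  obtain ⟨h1, h2, h3⟩ := (t.run t.p h le_rfl).choose_spec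
  exact ⟨_, h1, h2, h3.choose_spec⟩

theorem special : Special rel := by
  classical
  obtain ⟨g, hg⟩ := exists_injective_nat (ℕ ⊕ ℕ × ℕ)
  refine ⟨fun t => g (if h : o < t.p then Sum.inr (t.L.ncard, ej (t.last h) t.p)
    else Sum.inl (ej o t.p)), fun s t hst heq => ?_⟩
  have h1 := hg heq
  by_cases hs : o < s.p
  · have ht : o < t.p := hs.trans hst.1
    rw [dif_pos hs, dif_pos ht] at h1
    simp only [Sum.inr.injEq, Prod.mk.injEq] at h1
    obtain ⟨h2, h3⟩ := h1
    have h4 : s.L ⊆ t.L := by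
      rintro ν ⟨hν, hν'⟩
      refine ⟨hν, ?_⟩
      have h5 : ν < s.p := by
        by_contra hcon
        exact hν' (s.supp ν (not_lt.1 hcon))
      rwa [← hst.2 ν h5]
    have h5 : s.L = t.L := Set.eq_of_subset_of_ncard_le h4 h2.ge t.L_finite
    obtain ⟨μ, h6, h7, h8, h9, h10⟩ := s.last_spec hs
    obtain ⟨μ', h6', h7', h8', h9', h10'⟩ := t.last_spec ht
    have h11 : μ' ∈ s.L := by
      rw [h5]
      exact ⟨h6', by rw [h8']; simp⟩
    have h12 : μ' < s.p := by
      by_contra hcon
      exact h11.2 (s.supp μ' (not_lt.1 hcon))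
    have h13 : μ' = μ := by
      rcases lt_trichotomy μ' μ with h | h | h
      · have h14 : t.f μ = none := h10' μ h (h7.trans hst.1)
        rw [← hst.2 μ h7, h8] at h14
        exact absurd h14 (by simp)
      · exact h
      · exact absurd (h10 μ' h h12) h11.2
    have h14 : s.last hs = t.last ht := by
      have h15 : s.f μ = t.f μ := hst.2 μ h7
      rw [h8, ← h13, h8'] at h15
      exact Option.some_injective _ h15
    rw [← h14] at h3 h9'
    exact ne_of_lt hst.1 (ej_inj h9 h9' h3)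
  · rw [dif_neg hs] at h1
    by_cases ht : o < t.p
    · rw [dif_pos ht] at h1
      exact absurd h1 (by simp)
    · rw [dif_neg ht] at h1
      exact ne_of_lt hst.1 (ej_inj (not_lt.1 hs) (not_lt.1 ht) (Sum.inl_injective h1))

theorem chain_countable {C : Set Node} (hC : ∀ s ∈ C, ∀ t ∈ C, s = t ∨ rel s t ∨ rel t s) :
    C.Countable := by
  obtain ⟨f, hf⟩ := special
  refine Set.countable_iff_exists_injOn.2 ⟨f, fun s hs t ht h => ?_⟩
  rcases hC s hs t ht with h1 | h1 | h1
  · exact h1
  · exact absurd h (hf s t h1)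
  · exact absurd h.symm (hf t s h1)

theorem isAronszajn : IsAronszajn (ℵ_ 1) rel where
  tree := isTree
  height := fun α hα => by
    obtain ⟨p, hp⟩ := exists_ty hα
    obtain ⟨t, ht⟩ := exists_root
    rcases (ht p).lt_or_eq with h | h
    · obtain ⟨u, hu, -⟩ := exists_ext t h
      exact ⟨u, mem_lev_iff.2 (hu ▸ hp)⟩
    · exact ⟨t, mem_lev_iff.2 (h ▸ hp)⟩
  height' := by
    rw [Set.eq_empty_iff_forall_notMem]
    intro t ht
    rw [mem_lev_iff] at ht
    exact absurd (ty_lt_omega t.p) (by rw [ht]; exact lt_irrefl _)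
  levels := fun α => (Cardinal.mk_set_le _).trans mk_node
  no_branch := ⟨fun e => by
    have h1 := chain_countable (C := Set.range e) (by
      rintro _ ⟨a, rfl⟩ _ ⟨b, rfl⟩
      rcases lt_trichotomy a b with h | h | h
      · exact Or.inr (Or.inl (e.map_rel_iff.2 h))
      · exact Or.inl (by rw [h])
      · exact Or.inr (Or.inr (e.map_rel_iff.2 h)))
    have h2 := h1.to_subtype
    exact not_countable_W ((Equiv.ofInjective e e.injective).injective.countable)⟩

/-- the node of height `ω` given by a branch -/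
noncomputable def br (ξ : W) : Node where
  p := o
  f := y ξ
  supp := fun ν hν => y_none (not_lt.2 hν)
  bin := fun ν _ => y_bin ξ ν
  fin := ⟨ξ, by
    have : {ν | y ξ ν ≠ base o ξ ν} = ∅ := by
      rw [Set.eq_empty_iff_forall_notMem]
      intro ν hν
      apply hν
      unfold base
      by_cases h2 : ν < o
      · rw [if_pos ⟨le_rfl, h2⟩]
      · rw [if_neg fun h => h2 h.2, y_none h2]
    rw [this]
    exact finite_empty⟩
  run := fun γ h1 h2 => absurd h1 (not_lt.2 h2)

theorem br_inj {ξ ξ' : W} (h : ξ ≠ ξ') : br ξ ≠ br ξ' := by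
  intro heq
  obtain ⟨ν, -, hν⟩ := y_inj h
  apply hν
  have : (br ξ).f ν = (br ξ').f ν := by rw [heq]
  exact this

/-- the nodes of finite height -/
theorem countable_low : {t : Node | t.p < o}.Countable := by
  classical
  have hc : Countable (Iio o) := (countable_Iio_omega o).to_subtype
  rw [← Set.countable_coe_iff]
  have h1 : Function.Injective fun t : {t : Node | t.p < o} =>
      ((⟨t.1.p, t.2⟩ : Iio o), (((finite_Iio t.2).toFinset.filter fun ν => t.1.f ν ≠ none).subtype
        (fun ν => ν ∈ Iio o) : Finset (Iio o))) := by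
    intro t u h
    simp only [Prod.mk.injEq] at h
    obtain ⟨h2', h3⟩ := h
    have h2 : t.1.p = u.1.p := Subtype.ext_iff.1 h2'
    refine Subtype.ext (Node.ext' h2 fun ν hν => ?_)
    have hνo : ν < o := hν.trans t.2
    have h4 := Finset.ext_iff.1 h3 ⟨ν, hνo⟩
    simp only [Finset.mem_subtype, Finset.mem_filter, Set.Finite.mem_toFinset, mem_Iio] at h4
    rw [← h2] at h4
    simp only [hν, true_and] at h4
    rcases t.1.bin ν hνo with h5 | h5 <;> rcases u.1.bin ν hνo with h6 | h6 <;> rw [h5, h6] at h4 ⊢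
    · exact absurd rfl (h4.2 (by simp))
    · exact absurd rfl (h4.1 (by simp))
  exact h1.countable

/-- The tree does not embed into a tree of height `ω₁` with countable levels. -/
theorem not_embed {T : Type} {r : T → T → Prop} (hT : IsOmegaOneTree r) :
    IsEmpty (rel ↪r r) := by
  classical
  refine ⟨fun e => ?_⟩
  have hlt : ∀ t : T, ht hT.tree t < Ordinal.omega 1 := by
    intro t
    by_contra hcon
    rcases (not_lt.1 hcon).lt_or_eq with h | h
    · obtain ⟨s, hs⟩ := exists_ht hT.tree h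
      rw [hT.height'] at hs
      exact hs
    · have h1 := mem_Lev hT.tree t
      rw [← h, hT.height'] at h1
      exact h1
  -- a bound for the heights of the images of the nodes of finite height
  obtain ⟨t0, ht0⟩ := exists_root
  have ht0o : t0.p < o := by
    by_contra hcon
    have h2 : Iio o = ∅ := by
      rw [Set.eq_empty_iff_forall_notMem]
      intro x hx
      exact absurd ((not_lt.1 hcon).trans (ht0 x)) (not_le.2 hx)
    exact infinite_Iio_o (by rw [h2]; exact finite_empty)
  obtain ⟨g, hg⟩ := countable_low.exists_eq_range ⟨t0, ht0o⟩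
  choose w hw using fun n => exists_ty (hlt (e (g n)))
  obtain ⟨b, hb⟩ := exists_gt_all w
  have hlow : ∀ t : Node, t.p < o → ht hT.tree (e t) < ty b := by
    intro t ht'
    have : t ∈ Set.range g := by rw [← hg]; exact ht'
    obtain ⟨n, rfl⟩ := this
    rw [← hw n]
    exact ty_lt.2 (hb n)
  -- the branches with images of small height
  have hS : {ξ : W | ht hT.tree (e (br ξ)) < ty b}.Countable := by
    have h1 : (⋃ v : Iio b, Lev r (ty v.1)).Countable := by
      have : Countable (Iio b) := (countable_Iio_omega b).to_subtype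
      exact countable_iUnion fun v => hT.levels _
    have h2 : {ξ : W | ht hT.tree (e (br ξ)) < ty b} =
        (fun ξ => e (br ξ)) ⁻¹' {t | ht hT.tree t < ty b} := rfl
    rw [h2]
    refine Set.Countable.preimage_of_injOn (h1.mono fun t ht' => ?_) fun ξ _ ξ' _ h => ?_
    · obtain ⟨v, hv⟩ := exists_ty (hlt t)
      refine mem_iUnion.2 ⟨⟨v, ty_lt.1 (by rw [hv]; exact ht')⟩, ?_⟩
      have := mem_Lev hT.tree t
      rwa [← hv] at this
    · by_contra hne
      exact br_inj hne (e.injective h)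
  have hproj : ∀ ξ, ξ ∉ {ξ : W | ht hT.tree (e (br ξ)) < ty b} → ∃ s, s ∈ Lev r (ty b) ∧
      (s = e (br ξ) ∨ r s (e (br ξ))) := by
    intro ξ hξ
    have hξ' : ¬ ht hT.tree (e (br ξ)) < ty b := hξ
    rcases (not_lt.1 hξ').lt_or_eq with h | h
    · have := hT.tree.wo (e (br ξ))
      obtain ⟨s, hs⟩ := Ordinal.typein_surj (fun a b : {s // r s (e (br ξ))} => r a.1 b.1) h
      refine ⟨s.1, ?_, Or.inr s.2⟩
      rw [← hs, ← ht_typein hT.tree _ s]
      exact mem_Lev hT.tree s.1
    · refine ⟨_, ?_, Or.inl rfl⟩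
      rw [h]
      exact mem_Lev hT.tree _
  have hbig : (Set.univ \ {ξ : W | ht hT.tree (e (br ξ)) < ty b}).Countable := by
    have : Nonempty T := ⟨e t0⟩
    choose! pr hpr using hproj
    refine Set.MapsTo.countable_of_injOn (f := pr) (t := Lev r (ty b))
      (fun ξ hξ => (hpr ξ hξ.2).1) (fun ξ hξ ξ' hξ' heq => ?_) (hT.levels _)
    by_contra hne
    obtain ⟨ν, hν, hν'⟩ := y_inj hne
    obtain ⟨γ, h1, h2⟩ := exists_between_of_limit (Ordinal.isSuccLimit_omega0) ty_o hν
    have key : ∀ ξ, ξ ∉ {ξ : W | ht hT.tree (e (br ξ)) < ty b} →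
        r (e ((br ξ).rst γ h2.le)) (pr ξ) := by
      intro ξ hξ
      obtain ⟨h3, h4⟩ := hpr ξ hξ
      have h5 : r (e ((br ξ).rst γ h2.le)) (e (br ξ)) := e.map_rel_iff.2 (rel_rst (t := br ξ) h2)
      have h6 : ht hT.tree (e ((br ξ).rst γ h2.le)) < ht hT.tree (pr ξ) := by
        rw [ht_eq hT.tree h3]
        exact hlow _ h2
      rcases h4 with h4 | h4
      · rw [h4]
        exact h5
      · have := hT.tree.wo (e (br ξ))
        rcases trichotomous_of (fun a b : {s // r s (e (br ξ))} => r a.1 b.1) ⟨_, h5⟩ ⟨_, h4⟩ with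
          h | h | h
        · exact h
        · have h7 := Subtype.ext_iff.1 h
          simp only at h7
          rw [h7] at h6
          exact absurd h6 (lt_irrefl _)
        · exact absurd (h6.trans (ht_lt hT.tree h)) (lt_irrefl _)
    have h3 := key ξ hξ.2
    have h4 := key ξ' hξ'.2
    rw [← heq] at h4
    have h5 : ¬ rel ((br ξ).rst γ h2.le) ((br ξ').rst γ h2.le) := fun h => lt_irrefl _ h.1
    have h6 : ¬ rel ((br ξ').rst γ h2.le) ((br ξ).rst γ h2.le) := fun h => lt_irrefl _ h.1
    have := hT.tree.wo (pr ξ)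
    rcases trichotomous_of (fun a b : {s // r s (pr ξ)} => r a.1 b.1) ⟨_, h3⟩ ⟨_, h4⟩ with h | h | h
    · exact h5 (e.map_rel_iff.1 h)
    · have h7 := e.injective (Subtype.ext_iff.1 h)
      apply hν'
      have h8 : ((br ξ).rst γ h2.le).f ν = ((br ξ').rst γ h2.le).f ν := by rw [h7]
      exact (rst_f (t := br ξ) h2.le h1).symm.trans (h8.trans (rst_f (t := br ξ') h2.le h1))
    · exact h6 (e.map_rel_iff.1 h)
  exact not_countable_W (countable_univ_iff.1 ((hS.union hbig).mono fun ξ _ => by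
    by_cases h : ξ ∈ {ξ : W | ht hT.tree (e (br ξ)) < ty b}
    · exact Or.inl h
    · exact Or.inr ⟨trivial, h⟩))

end Pool.Agent.R582.Wide
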